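import Pool.Agent.Lib.MP_c8715f_al.CL.Equi

/-! From polars to the compact-open topology. -/

set_option autoImplicit false

open Filter Topology Set

namespace Pool.Agent.Lib.MP_c8715f_al.CL

variable {G : Type} [AddCommGroup G] [TopologicalSpace G] [IsTopologicalAddGroup G]

theorem bd_step (p : (G →+ T) → ℝ) (hp : PN p) (h : ∀ U ∈ 𝓝 (0 : G), PolC p U) {ε : ℝ}
    {U U' : Set G} (hU' : U' ∈ 𝓝 (0 : G)) (S : Set G)
    (hS : ∀ f : G →+ T, Continuous f → Pol U f → Pol S f → p f < ε) :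
    ∃ F : Finset G, (F : Set G) ⊆ U ∧
      ∀ f : G →+ T, Pol U' f → Pol (S ∪ F) f → p f < ε := by
  classical
  by_contra hcon
  push Not at hcon
  have hex : ∀ F : Finset G, ∃ f : G →+ T,
      Pol U' f ∧ Pol (S ∪ ((F.filter (· ∈ U) : Finset G) : Set G)) f ∧ ε ≤ p f := fun F =>
    hcon (F.filter (· ∈ U)) fun x hx => (Finset.mem_filter.1 (Finset.mem_coe.1 hx)).2
  choose g hg1 hg2 hg3 using hex
  obtain ⟨𝒰, h𝒰⟩ : ∃ 𝒰 : Ultrafilter (Finset G), (𝒰 : Filter (Finset G)) ≤ atTop :=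
    ⟨Ultrafilter.of atTop, Ultrafilter.of_le _⟩
  have hlim : ∀ x : G, ∃ t : T, Tendsto (fun F => g F x) (𝒰 : Filter (Finset G)) (𝓝 t) := by
    intro x
    obtain ⟨t, -, ht⟩ := isCompact_univ.ultrafilter_le_nhds (𝒰.map fun F => g F x) (by simp)
    exact ⟨t, ht⟩
  choose f0 hf0 using hlim
  have hadd : ∀ x y, f0 (x + y) = f0 x + f0 y := fun x y =>
    tendsto_nhds_unique (hf0 (x + y)) (by simpa only [map_add] using (hf0 x).add (hf0 y))
  let f : G →+ T := AddMonoidHom.mk' f0 hadd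
  have hf : ∀ x, Tendsto (fun F => g F x) (𝒰 : Filter (Finset G)) (𝓝 (f x)) := hf0
  have hle : ∀ x, (∀ᶠ F in (𝒰 : Filter (Finset G)), ‖g F x‖ ≤ 1 / 4) → ‖f x‖ ≤ 1 / 4 :=
    fun x hx => le_of_tendsto (hf x).norm hx
  have p1 : Pol U' f := fun x hx => hle x (Eventually.of_forall fun F => hg1 F x hx)
  have p2 : Pol S f := fun x hx => hle x (Eventually.of_forall fun F => hg2 F x (Or.inl hx))
  have p3 : Pol U f := fun x hx => hle x (by
    filter_upwards [h𝒰 (eventually_ge_atTop ({x} : Finset G))] with F hF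
    exact hg2 F x (Or.inr (Finset.mem_coe.2 (Finset.mem_filter.2
      ⟨hF (Finset.mem_singleton_self x), hx⟩))))
  have hc : Continuous f := pol_cont hU' p1
  have hlt := hS f hc p3 p2
  obtain ⟨V, hV, hV'⟩ := pol_small hU' (show (0 : ℝ) < 1 / 8 by norm_num)
  obtain ⟨F₀, δ, hδ, hF₀⟩ := h V hV ((ε - p f) / 2) (by linarith)
  have hev : ∀ᶠ F in (𝒰 : Filter (Finset G)), ∀ x ∈ F₀, ‖(g F - f) x‖ ≤ δ := by
    rw [eventually_all_finset]
    intro x _
    have h1 : Tendsto (fun F => ‖g F x - f x‖) (𝒰 : Filter (Finset G)) (𝓝 0) :=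
      tendsto_iff_norm_sub_tendsto_zero.1 (hf x)
    exact (h1.eventually (ge_mem_nhds hδ)).mono fun F hF => hF
  obtain ⟨F, hF⟩ := hev.exists
  have q1 : Pol V (g F - f) := fun x hx => by
    have a1 := hV' _ (hg1 F) x hx
    have a2 := hV' _ p1 x hx
    have a3 : ‖(g F - f) x‖ ≤ ‖g F x‖ + ‖f x‖ := norm_sub_le _ _
    linarith
  have q2 := hF₀ _ q1 hF
  have q3 := hp.add (g F - f) f (pol_cont hV q1) hc
  rw [sub_add_cancel] at q3
  have q4 := hg3 F
  linarith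

theorem bd [FirstCountableTopology G] (p : (G →+ T) → ℝ) (hp : PN p)
    (h : ∀ U ∈ 𝓝 (0 : G), PolC p U) : Cont p := by
  classical
  intro ε hε
  obtain ⟨U, hU⟩ := (𝓝 (0 : G)).exists_antitone_basis
  let W : ℕ → Set G := fun m => Nat.casesOn m univ U
  let A : ℕ → Set G → Prop := fun m S =>
    ∀ f : G →+ T, Continuous f → Pol (W m) f → Pol S f → p f < ε
  have h0 : A 0 ∅ := by
    intro f _ hf _
    have : f = 0 := by
      ext x
      have h1 : ∀ m : ℕ, ‖f x‖ ≤ 1 / ((m : ℝ) + 1) := fun m => by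
        have h2 := T_small (m + 1) (Nat.succ_pos m) (f x) fun j _ => by
          rw [← map_nsmul]; exact hf _ (mem_univ _)
        refine h2.trans ?_
        push_cast
        apply one_div_le_one_div_of_le (by positivity)
        have : (0 : ℝ) ≤ m := Nat.cast_nonneg m
        linarith
      have h3 : ‖f x‖ ≤ 0 :=
        ge_of_tendsto' (tendsto_one_div_add_atTop_nhds_zero_nat (𝕜 := ℝ)) h1
      exact norm_le_zero_iff.1 h3
    rw [this, hp.zero]
    exact hε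
  have hstep : ∀ m (S : {S : Set G // A m S}), ∃ F : Finset G, (F : Set G) ⊆ W m ∧
      A (m + 1) (S.1 ∪ F) := fun m S => by
    obtain ⟨F, hF1, hF2⟩ := bd_step p hp h (hU.mem m) S.1 S.2
    exact ⟨F, hF1, fun f _ h1 h2 => hF2 f h1 h2⟩
  choose Φ hΦ1 hΦ2 using hstep
  let s : (m : ℕ) → {S : Set G // A m S} := fun m =>
    Nat.rec (motive := fun m => {S : Set G // A m S}) ⟨∅, h0⟩
      (fun m S => ⟨S.1 ∪ Φ m S, hΦ2 m S⟩) m
  let F : ℕ → Finset G := fun m => Φ m (s m)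
  have hs : ∀ m, (s m).1 ⊆ ⋃ j, (F j : Set G) := by
    intro m
    induction m with
    | zero => exact empty_subset _
    | succ m ih => exact union_subset ih (subset_iUnion (fun j => (F j : Set G)) m)
  refine ⟨insert 0 (⋃ j, (F j : Set G)), ?_, 1 / 4, by norm_num, fun f hf hK => ?_⟩
  · apply isCompact_of_finite_subcover
    intro ι O hO hcov
    obtain ⟨i₀, hi₀⟩ := mem_iUnion.1 (hcov (mem_insert _ _))
    obtain ⟨m, hm⟩ := hU.mem_iff.1 ((hO i₀).mem_nhds hi₀)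
    obtain ⟨t, ht⟩ := (((Finset.range (m + 1)).biUnion F).finite_toSet).isCompact.elim_finite_subcover
      O hO (fun x hx => by
        obtain ⟨j, -, hj⟩ := Finset.mem_biUnion.1 (Finset.mem_coe.1 hx)
        exact hcov (mem_insert_of_mem _ (mem_iUnion.2 ⟨j, hj⟩)))
    refine ⟨insert i₀ t, fun x hx => ?_⟩
    have hi : x ∈ O i₀ → x ∈ ⋃ i ∈ insert i₀ t, O i := fun h1 =>
      mem_iUnion₂.2 ⟨i₀, Finset.mem_insert_self _ _, h1⟩
    rcases mem_insert_iff.1 hx with rfl | hx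
    · exact hi hi₀
    obtain ⟨j, hj⟩ := mem_iUnion.1 hx
    rcases lt_or_ge j (m + 1) with hjm | hjm
    · obtain ⟨i, hi1, hi2⟩ := mem_iUnion₂.1 (ht (Finset.mem_coe.2
        (Finset.mem_biUnion.2 ⟨j, Finset.mem_range.2 hjm, hj⟩)))
      exact mem_iUnion₂.2 ⟨i, Finset.mem_insert_of_mem hi1, hi2⟩
    · obtain ⟨k, rfl⟩ : ∃ k, j = k + 1 := ⟨j - 1, by omega⟩
      have h1 : x ∈ U k := hΦ1 (k + 1) (s (k + 1)) hj
      exact hi (hm (hU.antitone (by omega : m ≤ k) h1))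
  · have h1 : {x : G | ‖f x‖ ≤ 1 / 4} ∈ 𝓝 (0 : G) := by
      have h2 : Tendsto (fun x => ‖f x‖) (𝓝 0) (𝓝 0) := by
        simpa using (hf.tendsto 0).norm
      exact h2.eventually (ge_mem_nhds (by norm_num))
    obtain ⟨m, hm⟩ := hU.mem_iff.1 h1
    exact ((s (m + 1)).2 f hf (fun x hx => hm hx)
      fun x hx => hK x (mem_insert_of_mem _ (hs (m + 1) hx))).le

end Pool.Agent.Lib.MP_c8715f_al.CL
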