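import Pool.Agent.Lib.MP_c8715f_al.CL.Defs

/-! Additive characters, pseudonorms on them, polars. -/

set_option autoImplicit false

open Filter Topology Set

namespace Pool.Agent.Lib.MP_c8715f_al.CL

/-- the circle of length one -/
abbrev T : Type := AddCircle (1 : ℝ)

/-- every equation `n • z = y` with `n ≠ 0` is solvable -/
def Dv (M : Type) [AddCommGroup M] : Prop := ∀ n : ℤ, n ≠ 0 → ∀ y : M, ∃ z, n • z = y

/-- `n • G` is countable -/
def Cn (G : Type) [AddCommGroup G] (n : ℕ) : Prop := (Set.range fun x : G => n • x).Countable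

/-- monotone, subadditive, continuous at the empty set -/
structure SubM {X : Type} (ν : Set X → ℝ) : Prop where
  mono : ∀ A B, A ⊆ B → ν A ≤ ν B
  add : ∀ A B, ν (A ∪ B) ≤ ν A + ν B
  cont : ∀ A : ℕ → Set X, Antitone A → ⋂ n, A n = ∅ → Tendsto (fun n => ν (A n)) atTop (𝓝 0)

variable {G : Type} [AddCommGroup G]

/-- `f` lies in the polar of `U` -/
def Pol (U : Set G) (f : G →+ T) : Prop := ∀ x ∈ U, ‖f x‖ ≤ 1 / 4

variable [TopologicalSpace G]

/-- bounded pseudonorm on the continuous characters -/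
structure PN (p : (G →+ T) → ℝ) : Prop where
  zero : p 0 = 0
  nonneg : ∀ f, 0 ≤ p f
  bdd : ∃ C : ℝ, ∀ f, p f ≤ C
  neg : ∀ f : G →+ T, Continuous f → p (-f) = p f
  add : ∀ f g : G →+ T, Continuous f → Continuous g → p (f + g) ≤ p f + p g

/-- uniform convergence to zero on compact sets -/
def Null (f : ℕ → G →+ T) : Prop :=
  ∀ K : Set G, IsCompact K → ∀ ε : ℝ, 0 < ε → ∀ᶠ i in atTop, ∀ x ∈ K, ‖f i x‖ ≤ ε

/-- sequential continuity at zero -/
def SeqC (p : (G →+ T) → ℝ) : Prop :=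
  ∀ f : ℕ → G →+ T, (∀ i, Continuous (f i)) → Null f → Tendsto (fun i => p (f i)) atTop (𝓝 0)

/-- continuity at zero for the compact-open topology -/
def Cont (p : (G →+ T) → ℝ) : Prop :=
  ∀ ε : ℝ, 0 < ε → ∃ K : Set G, IsCompact K ∧ ∃ δ : ℝ, 0 < δ ∧
    ∀ f : G →+ T, Continuous f → (∀ x ∈ K, ‖f x‖ ≤ δ) → p f ≤ ε

/-- continuity at zero on the annihilator of `N` -/
def AnnC (p : (G →+ T) → ℝ) (N : AddSubgroup G) : Prop :=
  ∀ ε : ℝ, 0 < ε → ∃ F : Finset G, ∀ f : G →+ T, (∀ x ∈ N, f x = 0) → (∀ x ∈ F, f x = 0) →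
    p f ≤ ε

/-- continuity at zero on the polar of `U`, pointwise topology -/
def PolC (p : (G →+ T) → ℝ) (U : Set G) : Prop :=
  ∀ ε : ℝ, 0 < ε → ∃ F : Finset G, ∃ δ : ℝ, 0 < δ ∧
    ∀ f : G →+ T, Pol U f → (∀ x ∈ F, ‖f x‖ ≤ δ) → p f ≤ ε

/-- the topology of `G` is uniform convergence on the family `A` and pointwise on `B` -/
def Gen {Ω : Type} (A : Ω → G →+ T) (B : ℕ → G →+ T) : Prop :=
  ∀ (ι : Type) (l : Filter ι) (g : ι → G), Tendsto g l (𝓝 0) ↔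
    ((∀ ε : ℝ, 0 < ε → ∀ᶠ i in l, ∀ ω, ‖A ω (g i)‖ ≤ ε) ∧
      ∀ n, Tendsto (fun i => B n (g i)) l (𝓝 0))

end Pool.Agent.Lib.MP_c8715f_al.CL
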