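import Pool.Agent.Lib.MP_c8715f_al.CL.Base

/-! Continuous pseudonorms on an abelian topological group. -/

set_option autoImplicit false

open Filter Topology Set

namespace Pool.Agent.Lib.MP_c8715f_al.CL

theorem pseudo_step {L : Type} [CommGroup L] [TopologicalSpace L] [IsTopologicalGroup L]
    (S : {S : Set L // S ∈ 𝓝 (1 : L)}) : ∃ V : {S : Set L // S ∈ 𝓝 (1 : L)},
      (∀ x ∈ V.1, x⁻¹ ∈ V.1) ∧ ∀ a ∈ V.1, ∀ b ∈ V.1, ∀ c ∈ V.1, a * b * c ∈ S.1 := by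
  obtain ⟨V, hV, h⟩ := exists_nhds_one_split4 S.2
  refine ⟨⟨V ∩ V⁻¹, inter_mem hV (inv_mem_nhds_one L hV)⟩, fun x hx => ⟨hx.2, by simpa using hx.1⟩,
    fun a ha b hb c hc => ?_⟩
  simpa using h ha.1 hb.1 hc.1 (mem_of_mem_nhds hV)

theorem pseudo_chain {L : Type} [CommGroup L] [TopologicalSpace L] [IsTopologicalGroup L]
    {W : Set L} (hW : W ∈ 𝓝 (1 : L)) : ∃ U : ℕ → Set L, (∀ n, U n ∈ 𝓝 (1 : L)) ∧ U 0 ⊆ W ∧
      (∀ n, ∀ x ∈ U n, x⁻¹ ∈ U n) ∧
      ∀ n, ∀ a ∈ U (n + 1), ∀ b ∈ U (n + 1), ∀ c ∈ U (n + 1), a * b * c ∈ U n := by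
  choose f h1 h2 using pseudo_step (L := L)
  refine ⟨fun n => (f^[n + 1] ⟨W, hW⟩).1, fun n => (f^[n + 1] ⟨W, hW⟩).2, fun x hx => ?_,
    fun n => ?_, fun n => ?_⟩
  · have h0 : (1 : L) ∈ (f ⟨W, hW⟩).1 := mem_of_mem_nhds (f ⟨W, hW⟩).2
    simpa using h2 ⟨W, hW⟩ x hx 1 h0 1 h0
  · simp only [Function.iterate_succ_apply' f n]
    exact h1 _
  · simp only [Function.iterate_succ_apply' f (n + 1)]
    exact h2 _

theorem exists_pseudo {L : Type} [CommGroup L] [TopologicalSpace L] [IsTopologicalGroup L]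
    {W : Set L} (hW : W ∈ 𝓝 (1 : L)) : ∃ q : L → ℝ, q 1 = 0 ∧ (∀ x, 0 ≤ q x) ∧ (∀ x, q x ≤ 1) ∧
      (∀ x, q x⁻¹ = q x) ∧ (∀ x y, q (x * y) ≤ q x + q y) ∧ Tendsto q (𝓝 1) (𝓝 0) ∧
      ∃ ε : ℝ, 0 < ε ∧ ∀ x, q x ≤ ε → x ∈ W := by
  classical
  obtain ⟨U, hU, hU0, hinv, hmul⟩ := pseudo_chain hW
  have h1 : ∀ n, (1 : L) ∈ U n := fun n => mem_of_mem_nhds (hU n)
  have hanti : Antitone U := antitone_nat_of_succ_le fun n x hx => by
    simpa using hmul n x hx 1 (h1 _) 1 (h1 _)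
  obtain ⟨d, hd⟩ : ∃ d : L → L → NNReal, ∀ x y, d x y =
      if h : ∃ n, x⁻¹ * y ∉ U n then (1 / 2) ^ Nat.find h else 0 := ⟨_, fun _ _ => rfl⟩
  have hr : (0 : NNReal) < 1 / 2 := half_pos one_pos
  have hr' : (1 / 2 : NNReal) < 1 := NNReal.half_lt_self one_ne_zero
  have hself : ∀ x, d x x = 0 := fun x => by
    rw [hd, dif_neg]
    rintro ⟨n, hn⟩
    exact hn (by simpa using h1 n)
  have hsy : ∀ x y n, x⁻¹ * y ∈ U n ↔ y⁻¹ * x ∈ U n := fun x y n =>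
    ⟨fun h => by simpa [mul_comm] using hinv n _ h, fun h => by simpa [mul_comm] using hinv n _ h⟩
  have hcomm : ∀ x y, d x y = d y x := fun x y => by
    rw [hd, hd]
    simp only [hsy x y]
  have htr : ∀ z x y, d (z * x) (z * y) = d x y := fun z x y => by
    have e : (z * x)⁻¹ * (z * y) = x⁻¹ * y := by group
    rw [hd, hd]
    simp only [e]
  have hle : ∀ {x y : L} {n : ℕ}, (1 / 2) ^ n ≤ d x y ↔ x⁻¹ * y ∉ U n := by
    intro x y n
    rw [hd]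
    split_ifs with h
    · rw [(pow_right_strictAnti₀ hr hr').le_iff_ge, Nat.find_le_iff]
      exact ⟨fun ⟨m, hmn, hm⟩ hn => hm (hanti hmn hn), fun h => ⟨n, le_rfl, h⟩⟩
    · push Not at h
      simp only [h, not_true, (pow_pos hr _).not_ge]
  have hone : ∀ x y, d x y ≤ 1 := fun x y => by
    rw [hd]
    split_ifs with h
    · exact pow_le_one₀ hr.le hr'.le
    · exact zero_le
  have h4 : ∀ x₁ x₂ x₃ x₄, d x₁ x₄ ≤ 2 * max (d x₁ x₂) (max (d x₂ x₃) (d x₃ x₄)) := by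
    intro x₁ x₂ x₃ x₄
    by_cases H : ∃ n, x₁⁻¹ * x₄ ∉ U n
    · rw [hd x₁ x₄, dif_pos H, ← div_le_iff₀' zero_lt_two, ← mul_one_div (_ ^ _), ← pow_succ]
      simp only [le_max_iff, hle, ← not_and_or]
      rintro ⟨a, b, c⟩
      refine Nat.find_spec H ?_
      have e : x₁⁻¹ * x₂ * (x₂⁻¹ * x₃) * (x₃⁻¹ * x₄) = x₁⁻¹ * x₄ := by group
      have h5 := hmul _ _ a _ b _ c
      rwa [e] at h5
    · rw [hd x₁ x₄, dif_neg H]
      exact zero_le
  obtain ⟨D, hD⟩ : ∃ D : L → L → ℝ, ∀ x y, D x y = @dist L (@PseudoMetricSpace.toDist L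
      (PseudoMetricSpace.ofPreNNDist d hself hcomm)) x y := ⟨_, fun _ _ => rfl⟩
  have a1 : ∀ x y, D x y ≤ d x y := fun x y => by
    rw [hD]
    exact PseudoMetricSpace.dist_ofPreNNDist_le _ _ _ x y
  have a2 : ∀ x y, (d x y : ℝ) ≤ 2 * D x y := fun x y => by
    rw [hD]
    exact PseudoMetricSpace.le_two_mul_dist_ofPreNNDist _ _ _ h4 x y
  have a3 : ∀ x y, 0 ≤ D x y := fun x y => by
    rw [hD]
    exact @dist_nonneg L (PseudoMetricSpace.ofPreNNDist d hself hcomm) x y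
  have a4 : ∀ x y, D x y = D y x := fun x y => by
    rw [hD, hD]
    exact @dist_comm L (PseudoMetricSpace.ofPreNNDist d hself hcomm) x y
  have a5 : ∀ x y z, D x z ≤ D x y + D y z := fun x y z => by
    rw [hD, hD, hD]
    exact @dist_triangle L (PseudoMetricSpace.ofPreNNDist d hself hcomm) x y z
  have a6 : ∀ z x y, D (z * x) (z * y) ≤ D x y := fun z x y => by
    rw [hD, hD, PseudoMetricSpace.dist_ofPreNNDist, PseudoMetricSpace.dist_ofPreNNDist,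
      NNReal.coe_le_coe]
    refine le_ciInf fun l => (ciInf_le (OrderBot.bddBelow _) (l.map fun w => z * w)).trans_eq ?_
    have e1 : z * x :: l.map (fun w => z * w) = (x :: l).map fun w => z * w := rfl
    have e2 : l.map (fun w => z * w) ++ [z * y] = (l ++ [y]).map fun w => z * w := by simp
    rw [e1, e2, List.zipWith_map]
    simp only [htr]
  have a7 : ∀ x, D 1 x⁻¹ ≤ D 1 x := fun x => by
    have := a6 x⁻¹ x 1
    rw [inv_mul_cancel, mul_one, a4 x 1] at this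
    exact this
  refine ⟨D 1, le_antisymm ((a1 1 1).trans (by simp [hself])) (a3 1 1), a3 1,
    fun x => (a1 1 x).trans (by exact_mod_cast hone 1 x),
    fun x => le_antisymm (a7 x) (by simpa using a7 x⁻¹), fun x y => ?_, ?_,
    1 / 4, by norm_num, fun x hx => hU0 ?_⟩
  · have := a6 x 1 y
    rw [mul_one] at this
    linarith [a5 1 x (x * y)]
  · refine tendsto_order.2 ⟨fun a ha => Eventually.of_forall fun x => ha.trans_le (a3 1 x),
      fun a ha => ?_⟩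
    obtain ⟨n, hn⟩ := exists_pow_lt_of_lt_one ha (show (1 / 2 : ℝ) < 1 by norm_num)
    filter_upwards [hU n] with x hx
    have b1 : ¬ (1 / 2) ^ n ≤ d 1 x := fun h => hle.1 h (by simpa using hx)
    have b2 : (d 1 x : ℝ) < (1 / 2) ^ n := by exact_mod_cast not_le.1 b1
    linarith [a1 1 x]
  · by_contra h
    have b1 : (1 / 2) ^ 0 ≤ d 1 x := hle.2 (by simpa using h)
    have b2 : (1 : ℝ) ≤ d 1 x := by
      rw [pow_zero] at b1
      exact_mod_cast b1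
    linarith [a2 1 x]

end Pool.Agent.Lib.MP_c8715f_al.CL
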