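import Pool.Agent.Lib.MP_c8715f_al.CL.Log
import Pool.Agent.Lib.MP_c8715f_al.CL.Pseudo

/-! s-groups and sequentially continuous pseudonorms. -/

set_option autoImplicit false

open Filter Topology Set

namespace Pool.Agent.Lib.MP_c8715f_al.CL

theorem bridge_le {L : Type} [CommGroup L] (τ σ : TopologicalSpace L)
    (hτ : @IsTopologicalGroup L τ _) (hσ : @IsTopologicalGroup L σ _)
    (h : @nhds L τ 1 ≤ @nhds L σ 1) : τ ≤ σ :=
  le_of_nhds_le_nhds fun x => by
    rw [← @map_mul_left_nhds_one L τ _ hτ x, ← @map_mul_left_nhds_one L σ _ hσ x]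
    exact map_mono h

theorem bridge_semi {L : Type} [CommGroup L] (q : GroupSeminorm L) :
    ∃ σ : TopologicalSpace L, @IsTopologicalGroup L σ _ ∧
      (∀ u : ℕ → L, Tendsto (fun i => q (u i)) atTop (𝓝 0) → Tendsto u atTop (@nhds L σ 1)) ∧
      ∀ ε : ℝ, 0 < ε → {a | q a ≤ ε} ∈ @nhds L σ 1 := by
  let := q.toSeminormedCommGroup
  refine ⟨inferInstance, inferInstance, fun u hu => tendsto_one_iff_norm_tendsto_zero.2 hu,
    fun ε hε => ?_⟩
  exact mem_of_superset (Metric.closedBall_mem_nhds (1 : L) hε) fun a ha =>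
    mem_closedBall_one_iff.1 ha

theorem bridge_ball {L : Type} [CommGroup L] [τ : TopologicalSpace L] (h : IsSGroup L)
    (q : GroupSeminorm L)
    (hq : ∀ u : ℕ → L, Tendsto u atTop (𝓝 1) → Tendsto (fun i => q (u i)) atTop (𝓝 0))
    (ε : ℝ) (hε : 0 < ε) : {a | q a ≤ ε} ∈ 𝓝 (1 : L) := by
  obtain ⟨hτ, h2, S, hS, hmax⟩ := h
  obtain ⟨σ, hσ, hu, hb⟩ := bridge_semi q
  have hle := hmax (τ ⊓ σ) (topologicalGroup_inf hτ hσ)
    (t2Space_antitone (inf_le_left : τ ⊓ σ ≤ τ) h2) fun u huS => by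
      rw [@nhds_inf L τ σ 1]
      exact tendsto_inf.2 ⟨hS u huS, hu u (hq u (hS u huS))⟩
  exact nhds_mono (hle.trans inf_le_right) (hb ε hε)

variable {G : Type} [AddCommGroup G] [TopologicalSpace G]

theorem sgroup_of (h : ∀ p : (G →+ T) → ℝ, PN p → SeqC p → Cont p) :
    IsSGroup (PontryaginDual (Multiplicative G)) := by
  obtain ⟨lg, l1, lmul, linv, lc, linj, lsurj, lnhds⟩ := exists_log (G := G)
  have hnull : ∀ a : ℕ → PontryaginDual (Multiplicative G), Null (fun i => lg (a i)) →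
      Tendsto a atTop (𝓝 1) := by
    intro a hn V hV
    obtain ⟨K, hK, δ, hδ, hV'⟩ := (lnhds V).1 hV
    exact (hn K hK δ hδ).mono fun i hi => hV' (a i) hi
  refine ⟨inferInstance, inferInstance, {u | Tendsto u atTop (𝓝 1)}, fun u hu => hu,
    fun σ hσ _ hS => bridge_le _ σ inferInstance hσ fun W hW => ?_⟩
  obtain ⟨q, q1, q0, qb, qi, qm, qt, ε, hε, qW⟩ := @exists_pseudo _ _ σ hσ W hW
  have pa : ∀ a, Function.extend lg q 0 (lg a) = q a := fun a => linj.extend_apply q 0 a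
  have pc : ∀ f, (∃ a, lg a = f) ∨ Function.extend lg q 0 f = 0 := fun f => by
    by_cases hf : ∃ a, lg a = f
    · exact Or.inl hf
    · exact Or.inr (Function.extend_apply' q (0 : (G →+ T) → ℝ) f hf)
  have hp : PN (Function.extend lg q 0) := by
    refine ⟨by rw [← l1, pa, q1], fun f => ?_, ⟨1, fun f => ?_⟩, fun f hf => ?_,
      fun f g hf hg => ?_⟩
    · rcases pc f with ⟨a, rfl⟩ | h0
      · rw [pa]; exact q0 a
      · exact h0.ge
    · rcases pc f with ⟨a, rfl⟩ | h0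
      · rw [pa]; exact qb a
      · rw [h0]; exact zero_le_one
    · obtain ⟨a, rfl⟩ := lsurj f hf
      rw [← linv, pa, pa, qi]
    · obtain ⟨a, rfl⟩ := lsurj f hf
      obtain ⟨b, rfl⟩ := lsurj g hg
      rw [← lmul, pa, pa, pa]
      exact qm a b
  have hs : SeqC (Function.extend lg q 0) := by
    intro f hf hn
    choose a ha using fun i => lsurj (f i) (hf i)
    have h1 := hnull a (by rw [show (fun i => lg (a i)) = f from funext ha]; exact hn)
    refine (qt.comp (hS a h1)).congr fun i => ?_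
    rw [← ha, pa]
    rfl
  obtain ⟨K, hK, δ, hδ, hc⟩ := h _ hp hs ε hε
  refine (lnhds W).2 ⟨K, hK, δ, hδ, fun a ha => qW a ?_⟩
  rw [← pa]
  exact hc _ (lc a) ha

theorem cont_of_sgroup (h : IsSGroup (PontryaginDual (Multiplicative G)))
    (p : (G →+ T) → ℝ) (hp : PN p) (hs : SeqC p) : Cont p := by
  obtain ⟨lg, l1, lmul, linv, lc, -, lsurj, lnhds⟩ := exists_log (G := G)
  let q : GroupSeminorm (PontryaginDual (Multiplicative G)) :=
    { toFun := fun a => p (lg a)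
      map_one' := by rw [l1, hp.zero]
      mul_le' := fun a b => by rw [lmul]; exact hp.add _ _ (lc a) (lc b)
      inv' := fun a => by rw [linv]; exact hp.neg _ (lc a) }
  intro ε hε
  obtain ⟨K, hK, δ, hδ, hc⟩ := (lnhds _).1 (bridge_ball h q (fun u hu =>
    hs (fun i => lg (u i)) (fun i => lc _) fun K hK η hη =>
      hu ((lnhds {a | ∀ x ∈ K, ‖lg a x‖ ≤ η}).2 ⟨K, hK, η, hη, fun a ha => ha⟩)) ε hε)
  refine ⟨K, hK, δ, hδ, fun f hf hK' => ?_⟩
  obtain ⟨a, rfl⟩ := lsurj f hf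
  exact hc a hK'

end Pool.Agent.Lib.MP_c8715f_al.CL
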