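import Pool.Agent.Lib.MP_c8715f_al.CL.Base

/-! The circle group and extension of homomorphisms. -/

set_option autoImplicit false

open Filter Topology Set

namespace Pool.Agent.Lib.MP_c8715f_al.CL

theorem T_lift (t : T) : ∃ r : ℝ, (r : T) = t ∧ ‖t‖ = |r| ∧ |r| ≤ 1 / 2 := by
  induction t using QuotientAddGroup.induction_on with
  | H x =>
    refine ⟨x - round x, ?_, ?_, abs_sub_round x⟩
    · rw [AddCircle.coe_sub]
      have : (((round x : ℤ) : ℝ) : T) = 0 := by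
        rw [AddCircle.coe_eq_zero_iff]
        exact ⟨round x, by simp⟩
      rw [this, sub_zero]
    · have := AddCircle.norm_eq (1 : ℝ) (x := x)
      simpa using this

theorem T_norm_coe {r : ℝ} (h : |r| ≤ 1 / 2) : ‖(r : T)‖ = |r| := by
  refine (AddCircle.norm_coe_eq_abs_iff (1 : ℝ) one_ne_zero).2 ?_
  simpa using h

theorem T_norm_le (r : ℝ) : ‖(r : T)‖ ≤ |r| := by
  have := QuotientAddGroup.norm_mk_le_norm (S := AddSubgroup.zmultiples (1 : ℝ)) (m := r)
  simpa using this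

theorem T_le_half (t : T) : ‖t‖ ≤ 1 / 2 := by
  obtain ⟨r, -, h1, h2⟩ := T_lift t
  rw [h1]
  exact h2

theorem T_div_small (n : ℤ) (hn : n ≠ 0) (y : T) : ∃ z : T, n • z = y ∧ ‖z‖ ≤ ‖y‖ := by
  obtain ⟨r, h0, h1, -⟩ := T_lift y
  have hn' : (n : ℝ) ≠ 0 := Int.cast_ne_zero.2 hn
  refine ⟨((r / n : ℝ) : T), ?_, ?_⟩
  · rw [← AddCircle.coe_zsmul, zsmul_eq_mul, mul_div_cancel₀ _ hn', h0]
  · refine (T_norm_le _).trans ?_
    rw [h1, abs_div]
    have : (1 : ℝ) ≤ |(n : ℝ)| := by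
      rw [← Int.cast_abs]
      exact_mod_cast Int.one_le_abs hn
    exact div_le_self (abs_nonneg r) this

theorem T_dv : Dv T := by
  intro n hn y
  obtain ⟨z, hz, -⟩ := T_div_small n hn y
  exact ⟨z, hz⟩

theorem T_mul (n : ℕ) (t : T) (h : n * ‖t‖ ≤ 1 / 2) : ‖n • t‖ = n * ‖t‖ := by
  obtain ⟨r, h0, h1, -⟩ := T_lift t
  have e : |(n : ℝ) * r| = n * ‖t‖ := by rw [abs_mul, h1, Nat.abs_cast]
  rw [← e] at h ⊢
  rw [← h0, ← AddCircle.coe_nsmul, nsmul_eq_mul]
  exact T_norm_coe h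

theorem T_small (m : ℕ) (hm : 0 < m) (t : T) (h : ∀ j : ℕ, j ≤ m → ‖j • t‖ ≤ 1 / 4) :
    ‖t‖ ≤ 1 / (4 * m) := by
  have key : ∀ j : ℕ, j ≤ m → (j : ℝ) * ‖t‖ ≤ 1 / 4 := by
    intro j
    induction j with
    | zero => intro _; norm_num
    | succ j ih =>
      intro hj
      have h1 : ‖t‖ ≤ 1 / 4 := by simpa using h 1 hm
      have h2 := ih (by omega)
      have h3 : ((j + 1 : ℕ) : ℝ) * ‖t‖ ≤ 1 / 2 := by push_cast; linarith
      rw [← T_mul (j + 1) t h3]
      exact h _ hj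
  have hm' : (0 : ℝ) < m := by exact_mod_cast hm
  rw [le_div_iff₀ (by positivity)]
  have := key m le_rfl
  linarith

theorem T_tors (n : ℕ) (hn : 1 ≤ n) (t : T) (h0 : n • t = 0) (h : n * ‖t‖ ≤ 1 / 2) : t = 0 := by
  have h1 := T_mul n t h
  rw [h0, norm_zero] at h1
  have hn' : (n : ℝ) ≠ 0 := by exact_mod_cast (by omega : n ≠ 0)
  exact norm_eq_zero.1 ((mul_eq_zero.1 h1.symm).resolve_left hn')

theorem T_tors_gen (n : ℕ) (hn : 1 ≤ n) (t : T) (h0 : n • t = 0) :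
    ∃ b : ℤ, t = b • ((1 / n : ℝ) : T) := by
  obtain ⟨r, rfl, -, -⟩ := T_lift t
  rw [← AddCircle.coe_nsmul, AddCircle.coe_eq_zero_iff] at h0
  obtain ⟨b, hb⟩ := h0
  have hn' : (n : ℝ) ≠ 0 := by exact_mod_cast (by omega : n ≠ 0)
  refine ⟨b, ?_⟩
  rw [← AddCircle.coe_zsmul]
  have : r = b • (1 / n : ℝ) := by
    simp only [zsmul_eq_mul, nsmul_eq_mul, mul_one] at hb ⊢
    rw [hb]
    field_simp
  rw [← this]

theorem T_tors_finite (n : ℕ) (hn : 1 ≤ n) : {t : T | n • t = 0}.Finite := by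
  exact AddCircle.finite_torsion (1 : ℝ) hn

/-- a small element of prescribed order (`m = 0` means infinite order) -/
theorem T_ord (m k : ℕ) (h : m = 0 ∨ k + 2 ≤ m) : ∃ s : ℝ, 0 < s ∧ s ≤ 1 / (k + 2) ∧
    ∀ c : ℤ, c • (s : T) = 0 ↔ (m : ℤ) ∣ c := by
  rcases h with rfl | h
  · have h2 : Real.sqrt 2 ≤ 2 := by
      rw [Real.sqrt_le_left (by norm_num)]
      norm_num
    have hk : (0 : ℝ) < k + 2 := by positivity
    refine ⟨Real.sqrt 2 / (2 * (k + 2)), by positivity, ?_, fun c => ?_⟩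
    · rw [div_le_div_iff₀ (by positivity) hk]
      nlinarith
    · rw [← AddCircle.coe_zsmul, AddCircle.coe_eq_zero_iff, Nat.cast_zero, zero_dvd_iff]
      constructor
      · rintro ⟨b, hb⟩
        by_contra hc
        have hc' : (c : ℝ) ≠ 0 := Int.cast_ne_zero.2 hc
        simp only [zsmul_eq_mul, mul_one] at hb
        refine irrational_sqrt_two ⟨(b * (2 * (k + 2)) : ℚ) / c, ?_⟩
        push_cast
        rw [hb]
        field_simp
      · rintro rfl
        exact ⟨0, by simp⟩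
  · have hm : (0 : ℝ) < m := by exact_mod_cast (by omega : 0 < m)
    have hkm : (k : ℝ) + 2 ≤ m := by exact_mod_cast h
    refine ⟨1 / m, by positivity, one_div_le_one_div_of_le (by positivity) hkm, fun c => ?_⟩
    rw [← AddCircle.coe_zsmul, AddCircle.coe_eq_zero_iff]
    constructor
    · rintro ⟨b, hb⟩
      simp only [zsmul_eq_mul, mul_one] at hb
      refine ⟨b, ?_⟩
      have : (c : ℝ) = m * b := by
        rw [hb]
        field_simp
      exact_mod_cast this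
    · rintro ⟨b, rfl⟩
      refine ⟨b, ?_⟩
      simp only [zsmul_eq_mul, mul_one]
      push_cast
      field_simp

theorem ext_div {A B M : Type} [AddCommGroup A] [AddCommGroup B] [AddCommGroup M] (hM : Dv M)
    (f : A →+ B) (g : A →+ M) (h : ∀ a, f a = 0 → g a = 0) :
    ∃ k : B →+ M, ∀ a, k (f a) = g a := by
  let _ : DivisibleBy M ℤ := divisibleByOfSMulRightSurj M ℤ fun {n} hn y => hM n hn y
  obtain ⟨k, hk⟩ := (Module.Baer.of_divisible M).extension_property_addMonoidHom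
    (QuotientAddGroup.kerLift f) (QuotientAddGroup.kerLift_injective f)
    (QuotientAddGroup.lift f.ker g fun a ha => h a ha)
  exact ⟨k, fun a => DFunLike.congr_fun hk (QuotientAddGroup.mk a)⟩

theorem hom_of {I G M : Type} [AddCommGroup G] [AddCommGroup M] (hM : Dv M) (x : I → G)
    (y : I → M)
    (h : ∀ c : I →₀ ℤ, Finsupp.linearCombination ℤ x c = 0 → Finsupp.linearCombination ℤ y c = 0) :
    ∃ f : G →+ M, ∀ i, f (x i) = y i := by
  obtain ⟨k, hk⟩ := ext_div hM (Finsupp.linearCombination ℤ x).toAddMonoidHom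
    (Finsupp.linearCombination ℤ y).toAddMonoidHom h
  refine ⟨k, fun i => ?_⟩
  simpa using hk (Finsupp.single i 1)

theorem sep_char {G : Type} [AddCommGroup G] (S : AddSubgroup G) (g : G) (hg : g ∉ S) :
    ∃ f : G →+ T, (∀ x ∈ S, f x = 0) ∧ f g ≠ 0 := by
  have h0 : (QuotientAddGroup.mk g : G ⧸ S) ≠ 0 := fun e => hg ((QuotientAddGroup.eq_zero_iff g).1 e)
  have h1 : addOrderOf (QuotientAddGroup.mk g : G ⧸ S) ≠ 1 := fun e =>
    h0 (AddMonoid.addOrderOf_eq_one_iff.1 e)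
  obtain ⟨s, -, -, hs⟩ := T_ord (addOrderOf (QuotientAddGroup.mk g : G ⧸ S)) 0 (by omega)
  obtain ⟨k, hk⟩ := hom_of T_dv (fun _ : Unit => (QuotientAddGroup.mk g : G ⧸ S))
    (fun _ => (s : T)) fun c hc => by
      rw [Finsupp.linearCombination_unique] at hc ⊢
      exact (hs _).2 (addOrderOf_dvd_iff_zsmul_eq_zero.2 hc)
  refine ⟨k.comp (QuotientAddGroup.mk' S), fun x hx => ?_, fun e => h1 ?_⟩
  · have : (QuotientAddGroup.mk' S x) = 0 := (QuotientAddGroup.eq_zero_iff x).2 hx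
    rw [AddMonoidHom.comp_apply, this, map_zero]
  · have e' : (1 : ℤ) • (s : T) = 0 := by
      rw [one_zsmul, ← hk ()]
      exact e
    have := (hs 1).1 e'
    exact_mod_cast Int.eq_one_of_dvd_one (Int.natCast_nonneg _) this

end Pool.Agent.Lib.MP_c8715f_al.CL
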