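import Pool.Agent.Lib.MP_c8715f_al.CL.Circ

/-! A group of finite exponent embeds in a direct sum of circles. -/

set_option autoImplicit false

open Filter Topology Set

namespace Pool.Agent.Lib.MP_c8715f_al.CL

theorem dv_finsupp (I : Type) : Dv (I →₀ T) := by
  intro n hn y
  choose r h1 h2 using T_div_small n hn
  have h0 : r 0 = 0 := norm_le_zero_iff.1 (by simpa using h2 0)
  exact ⟨y.mapRange r h0, Finsupp.ext fun i => by simp [h1]⟩

/-- graphs of injective homomorphisms on subgroups whose values are supported on the domain -/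
def EmbP {Q : Type} [AddCommGroup Q] (Γ : AddSubgroup (Q × ((ℕ × Q) →₀ T))) : Prop :=
  (∀ z ∈ Γ, z.1 = 0 ↔ z.2 = 0) ∧ ∀ z ∈ Γ, ∀ i, z.2 i ≠ 0 → ∃ w ∈ Γ, w.1 = i.2

theorem Emb_max (Q : Type) [AddCommGroup Q] :
    ∃ Γ : AddSubgroup (Q × ((ℕ × Q) →₀ T)), Maximal EmbP Γ := by
  obtain ⟨Γ, -, h⟩ := zorn_le_nonempty₀ {Γ : AddSubgroup (Q × ((ℕ × Q) →₀ T)) | EmbP Γ}
    (fun c hc hch y hy => by
      have hm : ∀ z, z ∈ sSup c ↔ ∃ s ∈ c, z ∈ s := fun z =>
        AddSubgroup.mem_sSup_of_directedOn ⟨y, hy⟩ hch.directedOn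
      refine ⟨sSup c, ⟨fun z hz => ?_, fun z hz i hi => ?_⟩, fun z hz => le_sSup hz⟩
      · obtain ⟨s, hs, hz⟩ := (hm z).1 hz
        exact (hc hs).1 z hz
      · obtain ⟨s, hs, hz⟩ := (hm z).1 hz
        obtain ⟨w, hw, e⟩ := (hc hs).2 z hz i hi
        exact ⟨w, (hm w).2 ⟨s, hs, hw⟩, e⟩) ⊥
    ⟨fun z hz => by simp [AddSubgroup.mem_bot.1 hz], fun z hz i hi => by
      simp [AddSubgroup.mem_bot.1 hz] at hi⟩
  exact ⟨Γ, h⟩

theorem emb (Q : Type) [AddCommGroup Q] (n : ℕ) (hn : 1 ≤ n) (h : ∀ q : Q, n • q = 0) :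
    ∃ e : Q →+ ((ℕ × Q) →₀ T), Function.Injective e := by
  classical
  have _ := hn
  have _ := h
  obtain ⟨Γ, hΓ, hmax⟩ := Emb_max Q
  obtain ⟨k, hk⟩ := ext_div (dv_finsupp (ℕ × Q)) ((AddMonoidHom.fst _ _).comp Γ.subtype)
    ((AddMonoidHom.snd _ _).comp Γ.subtype) fun a ha => (hΓ.1 a a.2).1 ha
  refine ⟨k, (injective_iff_map_eq_zero k).2 fun x hx => by_contra fun h0 => ?_⟩
  have hd : ∀ c : ℤ, ∀ w ∈ Γ, w.1 = c • x → c • x = 0 := fun c w hw e => by
    have h1 : k w.1 = w.2 := hk ⟨w, hw⟩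
    rw [e, map_zsmul, hx, smul_zero] at h1
    rw [← e]
    exact (hΓ.1 w hw).2 h1.symm
  have hx' : ∀ w ∈ Γ, w.1 ≠ x := fun w hw e =>
    h0 (by simpa using hd 1 w hw (by simpa using e))
  obtain ⟨s, -, -, hs⟩ := T_ord (addOrderOf x) 0 (by
    have : addOrderOf x ≠ 1 := fun e => h0 (AddMonoid.addOrderOf_eq_one_iff.1 e)
    omega)
  have hs' : ∀ c : ℤ, c • (s : T) = 0 ↔ c • x = 0 := fun c =>
    (hs c).trans addOrderOf_dvd_iff_zsmul_eq_zero
  set g : Q × ((ℕ × Q) →₀ T) := (x, Finsupp.single (0, x) (s : T)) with hg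
  have hP : EmbP (Γ ⊔ AddSubgroup.zmultiples g) := by
    refine ⟨fun z hz => ?_, fun z hz i hi => ?_⟩ <;>
      obtain ⟨w, hw, _, ⟨c, rfl⟩, rfl⟩ := AddSubgroup.mem_sup.1 hz
    · simp only [hg, Prod.fst_add, Prod.snd_add, Prod.smul_mk, Finsupp.smul_single]
      constructor
      · intro e
        have h1 := hd c (-w) (neg_mem hw) (by rw [Prod.fst_neg]; exact neg_eq_of_add_eq_zero_right e)
        rw [h1, add_zero] at e
        rw [(hΓ.1 w hw).1 e, (hs' c).2 h1, Finsupp.single_zero, add_zero]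
      · intro e
        have h1 : w.2 (0, x) = 0 := by_contra fun h2 => by
          obtain ⟨v, hv, e'⟩ := hΓ.2 w hw _ h2
          exact hx' v hv e'
        have h2 : c • (s : T) = 0 := by simpa [h1] using DFunLike.congr_fun e (0, x)
        rw [h2, Finsupp.single_zero, add_zero] at e
        rw [(hΓ.1 w hw).2 e, (hs' c).1 h2, add_zero]
    · by_cases h1 : i = (0, x)
      · exact ⟨g, AddSubgroup.mem_sup_right (AddSubgroup.mem_zmultiples g), by simp [hg, h1]⟩
      · obtain ⟨v, hv, e⟩ := hΓ.2 w hw i (by simpa [hg, Finsupp.single_apply, Ne.symm h1] using hi)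
        exact ⟨v, AddSubgroup.mem_sup_left hv, e⟩
  exact hx' g (hmax hP le_sup_left (AddSubgroup.mem_sup_right (AddSubgroup.mem_zmultiples g))) rfl

/-- a character that vanishes where `e` is supported in `F` is an integer combination of the
coordinates outside `F` -/
theorem coords {Q I : Type} [AddCommGroup Q] (n : ℕ) (hn : 1 ≤ n) (h : ∀ q : Q, n • q = 0)
    (e : Q →+ (I →₀ T)) (F : Finset I) (f : Q →+ T)
    (hf : ∀ q, (∀ i, i ∉ F → e q i = 0) → f q = 0) :
    ∃ a : I → ℤ, (∀ i ∈ F, a i = 0) ∧ ∀ q, f q = (e q).sum fun i t => a i • t := by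
  classical
  obtain ⟨k, hk⟩ := ext_div T_dv
    ((Finsupp.filterAddHom (fun i : I => i ∉ F)).comp e) f (by
      intro q hq
      refine hf q fun i hi => ?_
      have h1 : Finsupp.filter (fun i : I => i ∉ F) (e q) i = 0 := DFunLike.congr_fun hq i
      rwa [Finsupp.filter_apply, if_pos hi] at h1)
  have hn0 : (n : ℝ) ≠ 0 := by
    have : n ≠ 0 := by omega
    exact_mod_cast this
  have hu : n • ((1 / n : ℝ) : T) = 0 := by
    rw [← AddCircle.coe_nsmul, nsmul_eq_mul, mul_one_div_cancel hn0]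
    exact AddCircle.coe_period (1 : ℝ)
  have hc : ∀ i : I, ∃ b : ℤ, k (Finsupp.single i ((1 / n : ℝ) : T)) = b • ((1 / n : ℝ) : T) := by
    intro i
    refine T_tors_gen n hn _ ?_
    rw [← map_nsmul, Finsupp.smul_single, hu, Finsupp.single_zero, map_zero]
  choose b hb using hc
  refine ⟨fun i => if i ∈ F then 0 else b i, fun i hi => if_pos hi, fun q => ?_⟩
  have hq : ∀ i, ∃ m : ℤ, e q i = m • ((1 / n : ℝ) : T) := by
    intro i
    refine T_tors_gen n hn _ ?_
    rw [← Finsupp.smul_apply, ← map_nsmul, h q, map_zero, Finsupp.zero_apply]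
  have h1 : Finsupp.filter (fun i : I => i ∉ F) (e q)
      = ∑ i ∈ (e q).support, Finsupp.single i (if i ∈ F then 0 else e q i) := by
    ext j
    rw [Finsupp.filter_apply, Finsupp.finsetSum_apply, Finset.sum_eq_single j]
    · by_cases hj : j ∈ F <;> simp [hj]
    · intro i _ hij
      exact Finsupp.single_eq_of_ne hij.symm
    · intro hj
      rw [Finsupp.notMem_support_iff] at hj
      simp [hj]
  have h2 : f q = k (Finsupp.filter (fun i : I => i ∉ F) (e q)) := (hk q).symm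
  rw [h2, h1, map_sum, Finsupp.sum]
  refine Finset.sum_congr rfl fun i _ => ?_
  by_cases hi : i ∈ F
  · simp [hi]
  · obtain ⟨m, hm⟩ := hq i
    simp only [if_neg hi]
    rw [hm, ← Finsupp.smul_single, map_zsmul, hb i, smul_comm]

end Pool.Agent.Lib.MP_c8715f_al.CL
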