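import Pool.Agent.Lib.MP_c8715f_al.CL.Base

/-! Submeasures. -/

set_option autoImplicit false

open Filter Topology Set

namespace Pool.Agent.Lib.MP_c8715f_al.CL

theorem SubM.empty {X : Type} {ν : Set X → ℝ} (h : SubM ν) : ν ∅ = 0 := by
  have h1 := h.cont (fun _ => ∅) antitone_const (iInter_const _)
  exact tendsto_nhds_unique tendsto_const_nhds h1

theorem SubM.nonneg {X : Type} {ν : Set X → ℝ} (h : SubM ν) (A : Set X) : 0 ≤ ν A := by
  rw [← h.empty]
  exact h.mono _ _ (empty_subset A)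

theorem subm_tail {X : Type} {ν : Set X → ℝ} (h : SubM ν) {A : Set X} (hA : A.Countable) {ε : ℝ}
    (hε : 0 < ε) : ∃ F : Finset X, ν (A \ F) ≤ ε := by
  classical
  rcases A.eq_empty_or_nonempty with rfl | hne
  · exact ⟨∅, by simp [h.empty, hε.le]⟩
  · obtain ⟨a, rfl⟩ := hA.exists_eq_range hne
    have h1 := h.cont (fun n => range a \ ((Finset.range n).image a : Finset X))
      (fun m n hmn => sdiff_subset_sdiff_right (Finset.coe_subset.2
        (Finset.image_subset_image (Finset.range_subset_range.2 hmn))))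
      (by
        refine eq_empty_of_forall_notMem fun x hx => ?_
        obtain ⟨k, rfl⟩ := (mem_iInter.1 hx 0).1
        exact (mem_iInter.1 hx (k + 1)).2
          (Finset.mem_coe.2 (Finset.mem_image_of_mem a (Finset.self_mem_range_succ k))))
    obtain ⟨n, hn⟩ := (h1.eventually_le_const hε).exists
    exact ⟨_, hn⟩

theorem subm_fin {X : Type} {ν : Set X → ℝ} (h : SubM ν) (h0 : ∀ x, ν {x} = 0) (F : Finset X) :
    ν F ≤ 0 := by
  classical
  induction F using Finset.induction_on with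
  | empty => simp [h.empty]
  | insert x F _ ih =>
    have h1 := h.add {x} F
    rw [Finset.coe_insert, insert_eq]
    linarith [h0 x]

theorem SubM.countable_null {X : Type} {ν : Set X → ℝ} (h : SubM ν) (h0 : ∀ x, ν {x} = 0)
    {A : Set X} (hA : A.Countable) : ν A = 0 := by
  refine le_antisymm (le_of_forall_pos_le_add fun ε hε => ?_) (h.nonneg A)
  obtain ⟨F, hF⟩ := subm_tail h hA hε
  have h1 := h.mono A (F ∪ A \ F) (fun x hx => by
    by_cases hx2 : x ∈ (F : Set X)
    · exact Or.inl hx2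
    · exact Or.inr ⟨hx, hx2⟩)
  linarith [h.add F (A \ F), subm_fin h h0 F]

theorem carries_iff {X : Type} :
    CarriesSubmeasure X ↔ ∃ ν : Set X → ℝ, SubM ν ∧ (∀ x, ν {x} = 0) ∧ 0 < ν univ := by
  constructor
  · rintro ⟨ν, h1, h2, h3, h4, h5⟩
    exact ⟨ν, ⟨h1, h2, h4⟩, h3, h5⟩
  · rintro ⟨ν, h, h3, h5⟩
    exact ⟨ν, h.mono, h.add, h3, h.cont, h5⟩

theorem carries_of_inj {X Y : Type} (i : X → Y) (hi : Function.Injective i)
    (h : CarriesSubmeasure X) : CarriesSubmeasure Y := by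
  obtain ⟨ν, hν, h0, h1⟩ := carries_iff.1 h
  refine carries_iff.2 ⟨fun B => ν (i ⁻¹' B), ⟨fun A B hAB => hν.mono _ _ (preimage_mono hAB),
    fun A B => by simpa only [preimage_union] using hν.add _ _, fun A hA hA0 => ?_⟩, fun y => ?_,
    by simpa using h1⟩
  · refine hν.cont (fun n => i ⁻¹' A n) (fun m n hmn => preimage_mono (hA hmn)) ?_
    rw [← preimage_iInter, hA0, preimage_empty]
  · exact hν.countable_null h0 ((countable_singleton y).preimage hi)

theorem uncountable_of_carries {X : Type} (h : CarriesSubmeasure X) : Uncountable X := by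
  obtain ⟨ν, hν, h0, h1⟩ := carries_iff.1 h
  by_contra hc
  rw [not_uncountable_iff] at hc
  exact h1.ne' (hν.countable_null h0 countable_univ)

theorem subm_atoms {X : Type} {ν : Set X → ℝ} (h : SubM ν) {δ : ℝ} (hδ : 0 < δ) :
    {x | δ ≤ ν {x}}.Finite := by
  by_contra hinf
  let a := Set.Infinite.natEmbedding _ hinf
  have ha : Function.Injective fun n => (a n : X) := Subtype.val_injective.comp a.injective
  have h1 := h.cont (fun n => (fun k => (a k : X)) '' Ici n)
    (fun m n hmn => image_mono (Ici_subset_Ici.2 hmn)) (by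
      refine eq_empty_of_forall_notMem fun x hx => ?_
      obtain ⟨k, -, rfl⟩ := mem_iInter.1 hx 0
      obtain ⟨l, hl, e⟩ := mem_iInter.1 hx (k + 1)
      have e2 := ha e
      have h2 : k + 1 ≤ l := hl
      omega)
  obtain ⟨n, hn⟩ := (h1.eventually_lt_const hδ).exists
  have h2 : δ ≤ ν {(a n : X)} := (a n).2
  have h3 := h.mono {(a n : X)} ((fun k => (a k : X)) '' Ici n)
    (singleton_subset_iff.2 ⟨n, self_mem_Ici, rfl⟩)
  linarith

theorem fin_supp {X : Type} (hX : ¬ CarriesSubmeasure X) {ν : Set X → ℝ} (h : SubM ν) {ε : ℝ}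
    (hε : 0 < ε) : ∃ F : Finset X, ν ((F : Set X)ᶜ) ≤ ε := by
  have hI : {x | ν {x} ≠ 0}.Countable := by
    refine (countable_iUnion fun j : ℕ =>
      (subm_atoms h (δ := 1 / ((j : ℝ) + 1)) (by positivity)).countable).mono fun x hx => ?_
    obtain ⟨j, hj⟩ := exists_nat_one_div_lt (lt_of_le_of_ne (h.nonneg {x}) (Ne.symm hx))
    exact mem_iUnion.2 ⟨j, hj.le⟩
  set I0 := {x | ν {x} ≠ 0} with hI0
  have h1 : ν I0ᶜ ≤ 0 := by
    by_contra hc
    refine hX (carries_iff.2 ⟨fun A => ν (A \ I0), ⟨fun A B hAB => h.mono _ _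
      (sdiff_subset_sdiff_left hAB), fun A B => by
        simpa only [union_sdiff_distrib] using h.add _ _, fun A hA hA0 => ?_⟩, fun x => ?_, ?_⟩)
    · refine h.cont (fun n => A n \ I0) (fun m n hmn => sdiff_subset_sdiff_left (hA hmn)) ?_
      refine eq_empty_of_subset_empty (hA0 ▸ iInter_mono fun n => sdiff_subset)
    · by_cases hx : x ∈ I0
      · have e : ({x} : Set X) \ I0 = ∅ := sdiff_eq_empty.2 (singleton_subset_iff.2 hx)
        simp only [e, h.empty]
      · have e : ν {x} = 0 := not_not.1 hx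
        exact le_antisymm (e ▸ h.mono _ _ sdiff_subset) (h.nonneg _)
    · simpa only [← compl_eq_univ_sdiff] using not_le.1 hc
  obtain ⟨F, hF⟩ := subm_tail h hI hε
  refine ⟨F, ?_⟩
  have h2 := h.mono (F : Set X)ᶜ (I0ᶜ ∪ I0 \ F) (fun x hx => by
    by_cases hx2 : x ∈ I0
    · exact Or.inr ⟨hx2, hx⟩
    · exact Or.inl hx2)
  linarith [h.add I0ᶜ (I0 \ F)]

end Pool.Agent.Lib.MP_c8715f_al.CL
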