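import Pool.Agent.Lib.MP_c8715f_al.CL.Equi
import Pool.Agent.Lib.MP_c8715f_al.CL.Subm
import Pool.Agent.Lib.MP_c8715f_al.CL.Emb

/-! The annihilator of an open subgroup of finite exponent. -/

set_option autoImplicit false

open Filter Topology Set

namespace Pool.Agent.Lib.MP_c8715f_al.CL

variable {G : Type} [AddCommGroup G] [TopologicalSpace G] [IsTopologicalAddGroup G]

/-- the character with integer weights `a` on the coordinates of `E` -/
noncomputable def comp_pi {I : Type} (E : G →+ (I →₀ T)) (a : I → ℤ) : G →+ T :=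
  (Finsupp.liftAddHom fun i => (zsmulAddGroupHom (a i) : T →+ T)).comp E

omit [TopologicalSpace G] [IsTopologicalAddGroup G] in
theorem comp_pi_apply {I : Type} (E : G →+ (I →₀ T)) (a : I → ℤ) (x : G) :
    comp_pi E a x = (E x).sum fun i t => a i • t := rfl

omit [TopologicalSpace G] [IsTopologicalAddGroup G] in
theorem comp_pi_add {I : Type} (E : G →+ (I →₀ T)) (a b : I → ℤ) :
    comp_pi E (a + b) = comp_pi E a + comp_pi E b := by
  ext x
  simp only [comp_pi_apply, AddMonoidHom.add_apply, Pi.add_apply, add_smul, Finsupp.sum_add]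

omit [TopologicalSpace G] [IsTopologicalAddGroup G] in
theorem comp_pol {I : Type} (E : G →+ (I →₀ T)) (N : AddSubgroup G) (hE : ∀ x ∈ N, E x = 0)
    (a : I → ℤ) : Pol (N : Set G) (comp_pi E a) := by
  intro x hx
  rw [comp_pi_apply, hE x hx, Finsupp.sum_zero_index, norm_zero]
  norm_num

/-- largest value of `p` on the characters with weights supported in `A` -/
noncomputable def comp_nu {I : Type} (E : G →+ (I →₀ T)) (p : (G →+ T) → ℝ) (A : Set I) : ℝ :=
  sSup ((fun a => p (comp_pi E a)) '' {a : I → ℤ | ∀ i, i ∉ A → a i = 0})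

omit [IsTopologicalAddGroup G] in
theorem comp_le_nu {I : Type} (E : G →+ (I →₀ T)) {p : (G →+ T) → ℝ} (hp : PN p) {A : Set I}
    {a : I → ℤ} (ha : ∀ i, i ∉ A → a i = 0) : p (comp_pi E a) ≤ comp_nu E p A := by
  obtain ⟨C, hC⟩ := hp.bdd
  refine le_csSup ⟨C, ?_⟩ ⟨a, ha, rfl⟩
  rintro _ ⟨b, -, rfl⟩
  exact hC _

omit [TopologicalSpace G] [IsTopologicalAddGroup G] in
theorem comp_ne {I : Type} (E : G →+ (I →₀ T)) (p : (G →+ T) → ℝ) (A : Set I) :
    ((fun a => p (comp_pi E a)) '' {a : I → ℤ | ∀ i, i ∉ A → a i = 0}).Nonempty :=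
  ⟨_, 0, fun _ _ => rfl, rfl⟩

theorem comp_subm {I : Type} (E : G →+ (I →₀ T)) (N : AddSubgroup G)
    (hN : (N : Set G) ∈ 𝓝 (0 : G)) (hE : ∀ x ∈ N, E x = 0) {p : (G →+ T) → ℝ} (hp : PN p)
    (hs : SeqC p) : SubM (comp_nu E p) := by
  classical
  have hc : ∀ a, Continuous (comp_pi E a) := fun a => pol_cont hN (comp_pol E N hE a)
  refine ⟨fun A B hAB => csSup_le (comp_ne E p A) ?_, fun A B => csSup_le (comp_ne E p _) ?_,
    fun A hA h0 => ?_⟩
  · rintro _ ⟨a, ha, rfl⟩
    exact comp_le_nu E hp fun i hi => ha i fun h => hi (hAB h)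
  · rintro _ ⟨a, ha, rfl⟩
    have e : a = A.indicator a + Aᶜ.indicator a := (Set.indicator_self_add_compl A a).symm
    have h1 : p (comp_pi E (A.indicator a)) ≤ comp_nu E p A :=
      comp_le_nu E hp fun i hi => Set.indicator_of_notMem hi a
    have h2 : p (comp_pi E (Aᶜ.indicator a)) ≤ comp_nu E p B := by
      refine comp_le_nu E hp fun i hi => ?_
      by_cases h : i ∈ A
      · exact Set.indicator_of_notMem (by simpa using h) a
      · rw [Set.indicator_of_mem (by simpa using h)]
        exact ha i (by simp [h, hi])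
    have h3 := hp.add _ _ (hc (A.indicator a)) (hc (Aᶜ.indicator a))
    rw [← comp_pi_add, ← e] at h3
    exact h3.trans (add_le_add h1 h2)
  · have ex : ∀ k : ℕ, ∃ a : I → ℤ, (∀ i, i ∉ A k → a i = 0) ∧
        comp_nu E p (A k) - 1 / ((k : ℝ) + 1) < p (comp_pi E a) := by
      intro k
      have hk : (0 : ℝ) < 1 / ((k : ℝ) + 1) := by positivity
      obtain ⟨_, ⟨a, ha, rfl⟩, h⟩ := exists_lt_of_lt_csSup (comp_ne E p (A k))
        (sub_lt_self (comp_nu E p (A k)) hk)
      exact ⟨a, ha, h⟩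
    choose a ha1 ha2 using ex
    have hout : ∀ i, ∀ᶠ k in atTop, i ∉ A k := by
      intro i
      have : i ∉ ⋂ k, A k := by rw [h0]; exact Set.notMem_empty i
      obtain ⟨k, hk⟩ := not_forall.1 (fun h => this (Set.mem_iInter.2 h))
      filter_upwards [eventually_ge_atTop k] with j hj h using hk (hA hj h)
    have hnull : Null fun k => comp_pi E (a k) := by
      refine null_of_pt hN _ (fun k => comp_pol E N hE (a k)) fun x => ?_
      refine tendsto_const_nhds.congr' ?_
      filter_upwards [(Filter.eventually_all_finset (E x).support).2 fun i _ => hout i] with k hk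
      rw [comp_pi_apply]
      exact (Finset.sum_eq_zero fun i hi => by simp only [ha1 k i (hk i hi), zero_smul]).symm
    have ht := (hs _ (fun k => hc (a k)) hnull).add tendsto_one_div_add_atTop_nhds_zero_nat
    rw [add_zero] at ht
    refine squeeze_zero (fun k => ?_) (fun k => ?_) ht
    · exact (hp.nonneg _).trans (comp_le_nu E hp (a := 0) fun _ _ => rfl)
    · linarith [ha2 k]

theorem compact_case [Infinite G] (hG : ¬ CarriesSubmeasure G) (n : ℕ) (hn : 1 ≤ n)
    (N : AddSubgroup G) (hN : (N : Set G) ∈ 𝓝 (0 : G)) (hnN : ∀ x : G, n • x ∈ N)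
    (p : (G →+ T) → ℝ) (hp : PN p) (hs : SeqC p) : AnnC p N := by
  classical
  intro ε hε
  have hQ : ∀ q : G ⧸ N, n • q = 0 := by
    intro q
    induction q using QuotientAddGroup.induction_on with
    | H x => rw [← QuotientAddGroup.mk_nsmul]; exact (QuotientAddGroup.eq_zero_iff _).2 (hnN x)
  obtain ⟨e, he⟩ := emb (G ⧸ N) n hn hQ
  have hI : ¬ CarriesSubmeasure (ℕ × (G ⧸ N)) := by
    have h1 : Cardinal.mk (ℕ × (G ⧸ N)) ≤ Cardinal.mk G := by
      have h2 : Cardinal.mk (G ⧸ N) ≤ Cardinal.mk G :=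
        Cardinal.mk_le_of_surjective (QuotientAddGroup.mk_surjective (s := N))
      have h3 := Cardinal.aleph0_le_mk G
      rw [Cardinal.mk_prod, Cardinal.lift_id, Cardinal.lift_id, Cardinal.mk_nat]
      exact (mul_le_mul' h3 h2).trans (Cardinal.mul_eq_self h3).le
    obtain ⟨j⟩ := (Cardinal.le_def _ _).1 h1
    exact fun h => hG (carries_of_inj j j.injective h)
  have hE : ∀ x ∈ N, e.comp (QuotientAddGroup.mk' N) x = 0 := by
    intro x hx
    rw [AddMonoidHom.comp_apply, QuotientAddGroup.mk'_apply,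
      (QuotientAddGroup.eq_zero_iff _).2 hx, map_zero]
  obtain ⟨F0, hF0⟩ := fin_supp hI (comp_subm _ N hN hE hp hs) hε
  have hfin : {q : G ⧸ N | ∀ i, i ∉ F0 → e q i = 0}.Finite := by
    refine Set.Finite.of_finite_image (f := fun q (i : F0) => e q i) ?_ ?_
    · refine (Set.Finite.pi' fun _ : F0 => T_tors_finite n hn).subset ?_
      rintro _ ⟨q, -, rfl⟩ i
      change n • e q i = 0
      rw [← Finsupp.nsmul_apply, ← map_nsmul, hQ, map_zero, Finsupp.zero_apply]
    · intro q hq r hr h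
      apply he
      ext i
      by_cases hi : i ∈ F0
      · exact congrFun h ⟨i, hi⟩
      · rw [hq i hi, hr i hi]
  refine ⟨hfin.toFinset.image Quotient.out, fun f hf1 hf2 => ?_⟩
  obtain ⟨a, ha1, ha2⟩ := coords n hn hQ e F0 (QuotientAddGroup.lift N f hf1) fun q hq => by
    rw [← QuotientAddGroup.out_eq' q, QuotientAddGroup.lift_mk]
    exact hf2 _ (Finset.mem_image_of_mem _ (hfin.mem_toFinset.2 hq))
  have e1 : f = comp_pi (e.comp (QuotientAddGroup.mk' N)) a := by
    ext x
    exact ha2 (QuotientAddGroup.mk x)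
  rw [e1]
  exact (comp_le_nu _ hp fun i hi => ha1 i (by simpa using hi)).trans hF0

end Pool.Agent.Lib.MP_c8715f_al.CL
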