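import Pool.Agent.Lib.MP_c8715f_al.CL.Far

/-! An independent family indexed by a long well-order. -/

set_option autoImplicit false

open Filter Topology Set

namespace Pool.Agent.Lib.MP_c8715f_al.CL

theorem indep_aux {G : Type} [AddCommGroup G] (I : Type) [LinearOrder I] [WellFoundedLT I]
    (hI : ∀ i : I, (Set.Iio i).Countable) (m : I → ℕ)
    (hm : ∀ i, ∀ D : Set G, D.Countable →
      ∃ z : G, addOrderOf z = m i ∧ ∀ c : ℤ, c • z ∈ AddSubgroup.closure D → c • z = 0) :
    ∃ x : I → G, ∀ c : I →₀ ℤ,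
      Finsupp.linearCombination ℤ x c = 0 ↔ ∀ i, (m i : ℤ) ∣ c i := by
  classical
  have hc : ∀ (i : I) (y : ∀ j, j < i → G),
      (Set.range fun j : Set.Iio i => y j.1 j.2).Countable := by
    intro i y
    haveI := (hI i).to_subtype
    exact Set.countable_range _
  let F : ∀ i : I, (∀ j, j < i → G) → G := fun i y => Classical.choose (hm i _ (hc i y))
  let x : I → G := (wellFounded_lt (α := I)).fix F
  have hx : ∀ i, x i = F i (fun j _ => x j) := fun i => (wellFounded_lt (α := I)).fix_eq F i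
  have hsp : ∀ i, addOrderOf (x i) = m i ∧ ∀ c : ℤ,
      c • x i ∈ AddSubgroup.closure (Set.range fun j : Set.Iio i => x j.1) → c • x i = 0 := by
    intro i
    have := Classical.choose_spec (hm i _ (hc i (fun j _ => x j)))
    rw [hx i]
    exact this
  have hdv : ∀ i (c : ℤ), (m i : ℤ) ∣ c ↔ c • x i = 0 := by
    intro i c
    rw [← (hsp i).1]
    exact addOrderOf_dvd_iff_zsmul_eq_zero
  refine ⟨x, fun c => ⟨?_, fun h => ?_⟩⟩
  · induction c using Finsupp.induction_on_max with
    | zero => intro _ i; simp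
    | single_add a b f hf _ ih =>
      intro h0
      rw [map_add, Finsupp.linearCombination_single] at h0
      have hmem : Finsupp.linearCombination ℤ x f ∈
          AddSubgroup.closure (Set.range fun j : Set.Iio a => x j.1) := by
        rw [Finsupp.linearCombination_apply, Finsupp.sum]
        refine AddSubgroup.sum_mem _ fun j hj => AddSubgroup.zsmul_mem _ ?_ _
        exact AddSubgroup.subset_closure ⟨⟨j, hf j hj⟩, rfl⟩
      have h1 : b • x a = 0 := by
        refine (hsp a).2 b ?_
        rw [eq_neg_of_add_eq_zero_left h0]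
        exact AddSubgroup.neg_mem _ hmem
      rw [h1, zero_add] at h0
      intro i
      rw [Finsupp.add_apply]
      refine dvd_add ?_ (ih h0 i)
      by_cases hi : a = i
      · subst hi
        rw [Finsupp.single_eq_same]
        exact (hdv a b).2 h1
      · rw [Finsupp.single_apply, if_neg hi]
        exact dvd_zero _
  · rw [Finsupp.linearCombination_apply, Finsupp.sum]
    exact Finset.sum_eq_zero fun j _ => (hdv j _).1 (h j)

theorem indep {G : Type} [AddCommGroup G] (h : ∀ n, 1 ≤ n → ¬ Cn G n) (W : Type) [LinearOrder W]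
    [WellFoundedLT W] (hW : ∀ w : W, (Set.Iio w).Countable) :
    ∃ (m : ℕ → ℕ) (x : W × ℕ → G), (∀ k, m k = 0 ∨ k + 2 ≤ m k) ∧
      ∀ c : (W × ℕ) →₀ ℤ, Finsupp.linearCombination ℤ x c = 0 ↔ ∀ i, (m i.2 : ℤ) ∣ c i := by
  choose m hm1 hm2 using far_unif h
  have hI : ∀ i : W ×ₗ ℕ, (Set.Iio i).Countable := by
    intro i
    have h1 : (Set.Iic (ofLex i).1).Countable := by
      rw [← Set.Iio_insert]
      exact (hW _).insert _
    have h2 : ((Set.Iic (ofLex i).1) ×ˢ (Set.univ : Set ℕ)).Countable :=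
      h1.prod Set.countable_univ
    refine (h2.image toLex).mono ?_
    intro j hj
    refine ⟨ofLex j, ⟨?_, Set.mem_univ _⟩, rfl⟩
    rcases Prod.Lex.lt_iff.1 hj with h3 | h3
    · exact h3.le
    · exact h3.1.le
  obtain ⟨x, hx⟩ := indep_aux (W ×ₗ ℕ) hI (fun i => m (ofLex i).2) (fun i => hm2 (ofLex i).2)
  exact ⟨m, x, hm1, hx⟩

theorem exists_W : ∃ (W : Type) (_ : LinearOrder W) (_ : WellFoundedLT W), Nonempty W ∧
    NoMaxOrder W ∧ (∀ w : W, (Set.Iio w).Countable) ∧ (∀ u : ℕ → W, ∃ w, ∀ i, u i ≤ w) ∧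
    ∃ r : W × ℕ → ℝ, Function.Injective r := by
  have hmk : Cardinal.mk (Cardinal.aleph 1).ord.ToType = Cardinal.aleph 1 :=
    Cardinal.mk_ord_toType _
  have hio : ∀ w : (Cardinal.aleph 1).ord.ToType, (Set.Iio w).Countable := by
    intro w
    rw [Cardinal.countable_iff_lt_aleph_one]
    have := Cardinal.mk_Iio_lt w (by simp)
    rwa [hmk] at this
  have hun : ¬ (Set.univ : Set (Cardinal.aleph 1).ord.ToType).Countable := by
    rw [Cardinal.countable_iff_lt_aleph_one, Cardinal.mk_univ, hmk]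
    exact lt_irrefl _
  refine ⟨(Cardinal.aleph 1).ord.ToType, inferInstance, inferInstance, ?_,
    Cardinal.noMaxOrder (Cardinal.aleph0_le_aleph 1), hio, fun u => ?_, ?_⟩
  · by_contra hne
    haveI := not_nonempty_iff.1 hne
    exact hun (Set.to_countable _)
  · by_contra hb
    refine hun ((Set.countable_iUnion fun i => hio (u i)).mono fun w _ => ?_)
    by_contra hw
    refine hb ⟨w, fun i => not_lt.1 fun hlt => hw ?_⟩
    exact Set.mem_iUnion.2 ⟨i, hlt⟩
  · have hle : Cardinal.mk ((Cardinal.aleph 1).ord.ToType × ℕ) ≤ Cardinal.mk ℝ := by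
      rw [Cardinal.mk_prod, Cardinal.lift_id, Cardinal.lift_id, hmk, Cardinal.mk_nat,
        Cardinal.mk_real, Cardinal.mul_eq_left (Cardinal.aleph0_le_aleph 1)
          (Cardinal.aleph0_le_aleph 1) Cardinal.aleph0_ne_zero]
      exact Cardinal.aleph_one_le_continuum
    obtain ⟨e⟩ := (Cardinal.le_def _ _).1 hle
    exact ⟨e, e.injective⟩

end Pool.Agent.Lib.MP_c8715f_al.CL
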