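import Pool.Agent.Lib.MP_c8715f_al.CL.Circ
import Pool.Agent.Lib.MP_c8715f_al.CL.Indep

/-! The characters that define the bad topology. -/

set_option autoImplicit false

open Filter Topology Set

namespace Pool.Agent.Lib.MP_c8715f_al.CL

/-- functions that vanish from some point on -/
def dataEv (W : Type) [LinearOrder W] [Nonempty W] : AddSubgroup (W → T) where
  carrier := {u | ∃ β, ∀ γ, β ≤ γ → u γ = 0}
  zero_mem' := ⟨Classical.arbitrary W, fun _ _ => rfl⟩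
  add_mem' := by
    rintro u v ⟨a, ha⟩ ⟨b, hb⟩
    refine ⟨max a b, fun γ h => ?_⟩
    rw [Pi.add_apply, ha γ ((le_max_left _ _).trans h), hb γ ((le_max_right _ _).trans h), add_zero]
  neg_mem' := by
    rintro u ⟨a, ha⟩
    exact ⟨a, fun γ h => by rw [Pi.neg_apply, ha γ h, neg_zero]⟩

theorem data_dv (W : Type) [LinearOrder W] [Nonempty W] : Dv (dataEv W) := by
  intro n hn y
  choose rt h1 h2 using T_div_small n hn
  obtain ⟨β, hβ⟩ := y.2
  refine ⟨⟨fun γ => rt (y.1 γ), β, fun γ h => ?_⟩, Subtype.ext (funext fun γ => h1 _)⟩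
  have h3 := h2 (y.1 γ)
  rw [hβ γ h, norm_zero] at h3
  change rt (y.1 γ) = 0
  rw [hβ γ h]
  exact norm_le_zero_iff.1 h3

theorem data_iso {I : Type} (r : I → ℝ) (hr : Function.Injective r) (F : Finset I) (i : I) :
    ∃ p q : ℚ, (p : ℝ) < r i ∧ r i < q ∧ ∀ j ∈ F, (p : ℝ) < r j → r j < q → j = i := by
  have h1 : (r '' ((F : Set I) \ {i})).Finite := (F.finite_toSet.subset sdiff_subset).image r
  have h2 : (r '' ((F : Set I) \ {i}))ᶜ ∈ 𝓝 (r i) := by
    refine h1.isClosed.isOpen_compl.mem_nhds ?_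
    rintro ⟨j, hj, e⟩
    exact hj.2 (hr e)
  obtain ⟨a, b, ⟨ha, hb⟩, h3⟩ := mem_nhds_iff_exists_Ioo_subset.1 h2
  obtain ⟨p, hp1, hp2⟩ := exists_rat_btwn ha
  obtain ⟨q, hq1, hq2⟩ := exists_rat_btwn hb
  refine ⟨p, q, hp2, hq1, fun j hj h4 h5 => ?_⟩
  by_contra hne
  exact h3 ⟨hp1.trans h4, h5.trans hq2⟩ ⟨j, ⟨hj, hne⟩, rfl⟩

theorem data {G : Type} [AddCommGroup G] (W : Type) [LinearOrder W] [Nonempty W]
    [NoMaxOrder W] (r : W × ℕ → ℝ) (hr : Function.Injective r) (m : ℕ → ℕ) (x : W × ℕ → G)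
    (hm : ∀ k, m k = 0 ∨ k + 2 ≤ m k)
    (hx : ∀ c : (W × ℕ) →₀ ℤ, Finsupp.linearCombination ℤ x c = 0 ↔ ∀ i, (m i.2 : ℤ) ∣ c i) :
    ∃ (Ω : Type) (A : Ω → G →+ T) (B : ℕ → G →+ T) (ρ : Ω → WithTop W) (ι : W → Ω) (s : ℕ → ℝ),
      (∀ g, (∀ ω, A ω g = 0) → (∀ n, B n g = 0) → g = 0) ∧
      (∀ k, 0 < s k ∧ s k ≤ 1 / (k + 2)) ∧
      (∀ ω α k, A ω (x (α, k)) = if ρ ω ≤ (α : WithTop W) then (s k : T) else 0) ∧
      (∀ γ, ρ (ι γ) = γ) ∧ ∀ g, ∃ β, ∀ γ, β ≤ γ → A (ι γ) g = 0 := by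
  classical
  choose s hs1 hs2 hs3 using fun k => T_ord (m k) k (hm k)
  have hy : ∀ (α : W) (k : ℕ), (fun γ : W => if γ ≤ α then (s k : T) else 0) ∈ dataEv W := by
    intro α k
    obtain ⟨β, hβ⟩ := exists_gt α
    exact ⟨β, fun γ h => if_neg (not_le.2 (hβ.trans_le h))⟩
  obtain ⟨h, hh⟩ := hom_of (data_dv W) x (fun i => ⟨_, hy i.1 i.2⟩) fun c hc => by
    rw [Finsupp.linearCombination_apply, Finsupp.sum]
    refine Finset.sum_eq_zero fun i _ => Subtype.ext (funext fun γ => ?_)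
    change c i • (if γ ≤ i.1 then (s i.2 : T) else 0) = 0
    split_ifs
    · exact (hs3 _ _).2 ((hx c).1 hc i)
    · exact smul_zero _
  obtain ⟨e, he⟩ := exists_surjective_nat (ℚ × ℚ)
  have hB : ∀ n : ℕ, ∃ f : G →+ T, ∀ i, f (x i) =
      if ((e n).1 : ℝ) < r i ∧ r i < (e n).2 then (s i.2 : T) else 0 := fun n =>
    hom_of T_dv x _ fun c hc => by
      rw [Finsupp.linearCombination_apply, Finsupp.sum]
      refine Finset.sum_eq_zero fun i _ => ?_
      split_ifs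
      · exact (hs3 _ _).2 ((hx c).1 hc i)
      · exact smul_zero _
  choose B hB using hB
  refine ⟨W ⊕ {f : G →+ T // ∀ i, f (x i) = 0},
    Sum.elim (fun γ => ((Pi.evalAddMonoidHom (fun _ => T) γ).comp (dataEv W).subtype).comp h)
      Subtype.val, B, Sum.elim (fun γ => (γ : WithTop W)) fun _ => ⊤, Sum.inl, s,
    fun g hA hg => ?_, fun k => ⟨hs1 k, hs2 k⟩, ?_, fun _ => rfl, fun g => (h g).2⟩
  · obtain ⟨c, rfl⟩ : g ∈ (LinearMap.range (Finsupp.linearCombination ℤ x)).toAddSubgroup := by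
      by_contra hn
      obtain ⟨f, h1, h2⟩ := sep_char _ g hn
      exact h2 (hA (Sum.inr ⟨f, fun i => h1 _ ⟨Finsupp.single i 1, by simp⟩⟩))
    refine (hx c).2 fun i => ?_
    obtain ⟨p, q, h1, h2, h3⟩ := data_iso r hr c.support i
    obtain ⟨n, hn⟩ := he (p, q)
    have h4 := hg n
    rw [Finsupp.linearCombination_apply, Finsupp.sum, map_sum, Finset.sum_eq_single i] at h4
    · rw [map_zsmul, hB, hn, if_pos ⟨h1, h2⟩] at h4
      exact (hs3 _ _).1 h4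
    · intro j hj hne
      rw [map_zsmul, hB, hn, if_neg fun H => hne (h3 j hj H.1 H.2), smul_zero]
    · intro hi
      rw [Finsupp.notMem_support_iff.1 hi, zero_smul, map_zero]
  · rintro (γ | f) α k
    · change (h (x (α, k))).1 γ = if (γ : WithTop W) ≤ (α : WithTop W) then (s k : T) else 0
      rw [hh]
      simp only [WithTop.coe_le_coe]
    · change f.1 (x (α, k)) = if (⊤ : WithTop W) ≤ (α : WithTop W) then (s k : T) else 0
      rw [f.2, if_neg (not_le.2 (WithTop.coe_lt_top α))]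

end Pool.Agent.Lib.MP_c8715f_al.CL
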