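import Pool.Agent.Lib.MP_c8715f_al.Defs

open Filter Topology

namespace Pool.Agent.Lib.MP_c8715f_al.CL

/-- `X` carries a nonzero diffuse continuous submeasure: a real function on all subsets of `X`
that is monotone, subadditive, zero on points, tends to `0` along every decreasing sequence of
sets with empty intersection, and is positive on `X`. -/
def CarriesSubmeasure (X : Type) : Prop :=
  ∃ ν : Set X → ℝ, (∀ A B, A ⊆ B → ν A ≤ ν B) ∧ (∀ A B, ν (A ∪ B) ≤ ν A + ν B) ∧
    (∀ x, ν {x} = 0) ∧
    (∀ A : ℕ → Set X, Antitone A → ⋂ n, A n = ∅ → Tendsto (fun n => ν (A n)) atTop (𝓝 0)) ∧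
    0 < ν Set.univ

end Pool.Agent.Lib.MP_c8715f_al.CL
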