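import Pool.Agent.Lib.MP_c8715f_al.CL.Circ

/-! Polars and equicontinuity. -/

set_option autoImplicit false

open Filter Topology Set

namespace Pool.Agent.Lib.MP_c8715f_al.CL

variable {G : Type} [AddCommGroup G] [TopologicalSpace G] [IsTopologicalAddGroup G]

theorem pol_small {U : Set G} (hU : U ∈ 𝓝 (0 : G)) {ε : ℝ} (hε : 0 < ε) :
    ∃ V ∈ 𝓝 (0 : G), ∀ f : G →+ T, Pol U f → ∀ x ∈ V, ‖f x‖ ≤ ε := by
  obtain ⟨m, hm⟩ := exists_nat_one_div_lt hε
  have hc : ∀ j : ℕ, (fun x : G => j • x) ⁻¹' U ∈ 𝓝 (0 : G) := fun j =>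
    (continuous_nsmul j).continuousAt.preimage_mem_nhds (by simpa using hU)
  refine ⟨⋂ j ∈ Finset.range (m + 2), (fun x : G => j • x) ⁻¹' U,
    (Filter.biInter_finset_mem _).2 fun j _ => hc j, fun f hf x hx => ?_⟩
  have h1 := T_small (m + 1) (Nat.succ_pos m) (f x) fun j hj => by
    rw [← map_nsmul]
    exact hf _ (mem_iInter₂.1 hx j (Finset.mem_range.2 (by omega)))
  refine h1.trans (le_trans ?_ hm.le)
  push_cast
  exact one_div_le_one_div_of_le (by positivity) (by linarith [Nat.cast_nonneg (α := ℝ) m])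

theorem pol_cont {U : Set G} (hU : U ∈ 𝓝 (0 : G)) {f : G →+ T} (hf : Pol U f) :
    Continuous f := by
  refine continuous_of_continuousAt_zero f ?_
  rw [ContinuousAt, map_zero, Metric.tendsto_nhds]
  intro ε hε
  obtain ⟨V, hV, h⟩ := pol_small hU (half_pos hε)
  filter_upwards [hV] with x hx
  rw [dist_zero_right]
  exact (h f hf x hx).trans_lt (half_lt_self hε)

theorem null_of_pt {U : Set G} (hU : U ∈ 𝓝 (0 : G)) (f : ℕ → G →+ T) (hf : ∀ i, Pol U (f i))
    (h : ∀ x, Tendsto (fun i => f i x) atTop (𝓝 0)) : Null f := by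
  intro K hK ε hε
  obtain ⟨V, hV, hs⟩ := pol_small hU (half_pos hε)
  have hn : ∀ y ∈ K, (fun x : G => x - y) ⁻¹' V ∈ 𝓝 y := fun y _ =>
    (continuous_sub_right y).continuousAt.preimage_mem_nhds (by simpa using hV)
  obtain ⟨t, -, ht⟩ := hK.elim_nhds_subcover _ hn
  have he : ∀ᶠ i in atTop, ∀ y ∈ t, ‖f i y‖ ≤ ε / 2 :=
    (Filter.eventually_all_finset t).2 fun y _ => by
      filter_upwards [Metric.tendsto_nhds.1 (h y) _ (half_pos hε)] with i hi
      rw [dist_zero_right] at hi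
      exact hi.le
  filter_upwards [he] with i hi x hx
  obtain ⟨y, hy, hxy⟩ := mem_iUnion₂.1 (ht hx)
  have e : f i x = f i (x - y) + f i y := by rw [← map_add, sub_add_cancel]
  rw [e]
  exact (norm_add_le _ _).trans (by linarith [hs (f i) (hf i) _ hxy, hi y hy])

theorem Null.pt {f : ℕ → G →+ T} (h : Null f) (x : G) :
    Tendsto (fun i => f i x) atTop (𝓝 0) := by
  rw [Metric.tendsto_nhds]
  intro ε hε
  filter_upwards [h {x} isCompact_singleton _ (half_pos hε)] with i hi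
  rw [dist_zero_right]
  exact (hi x rfl).trans_lt (half_lt_self hε)

theorem equi [FirstCountableTopology G] (f : ℕ → G →+ T) (hf : ∀ i, Continuous (f i))
    (h : Null f) : ∃ U ∈ 𝓝 (0 : G), ∀ᶠ i in atTop, Pol U (f i) := by
  obtain ⟨U, hU⟩ := (𝓝 (0 : G)).exists_antitone_basis
  by_contra hcon
  have h1 : ∀ k : ℕ, ∃ n, k ≤ n ∧ ∃ x ∈ U k, 1 / 4 < ‖f n x‖ := fun k => by
    by_contra h2
    refine hcon ⟨U k, hU.mem k, eventually_atTop.2 ⟨k, fun n hn x hx => ?_⟩⟩
    by_contra h3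
    exact h2 ⟨n, hn, x, hx, not_le.1 h3⟩
  choose n hn x hx hlt using h1
  have hK := (hU.tendsto hx).isCompact_insert_range
  obtain ⟨N, hN⟩ := eventually_atTop.1 (h _ hK (1 / 4) (by norm_num))
  exact absurd (hN (n N) (hn N) (x N) (Or.inr ⟨N, rfl⟩)) (not_le.2 (hlt N))

end Pool.Agent.Lib.MP_c8715f_al.CL
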