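import Pool.Agent.Lib.MP_c8715f_al.CL.Circ

/-! Uniformly continuous characters are eventually constant on the steps. -/

set_option autoImplicit false

open Filter Topology Set

namespace Pool.Agent.Lib.MP_c8715f_al.CL

theorem ev_const {G Ω W : Type} [AddCommGroup G] [LinearOrder W] [Nonempty W]
    (hW : ∀ u : ℕ → W, ∃ w, ∀ i, u i ≤ w) (A : Ω → G →+ T) (ρ : Ω → WithTop W) (y : W → G)
    (t : T) (hy : ∀ ω α, A ω (y α) = if ρ ω ≤ (α : WithTop W) then t else 0) (δ : ℝ)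
    (ht : ‖t‖ ≤ δ) (f : G →+ T) (hf : ∀ g, (∀ ω, ‖A ω g‖ ≤ δ) → ‖f g‖ ≤ 1 / 4) :
    ∃ β, ∀ α, β ≤ α → f (y α) = f (y β) := by
  by_contra hcon
  have h1 : ∃ η : ℝ, 0 < η ∧ ∀ γ : W, ∃ α β, γ ≤ α ∧ α ≤ β ∧ η ≤ ‖f (y β - y α)‖ := by
    by_contra h
    push Not at h
    choose γ hγ using fun j : ℕ => h (1 / ((j : ℝ) + 1)) (by positivity)
    obtain ⟨w, hw⟩ := hW γ
    refine hcon ⟨w, fun α hα => ?_⟩
    have h0 : ‖f (y α - y w)‖ ≤ 0 := by
      refine le_of_forall_pos_le_add fun ε hε => ?_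
      obtain ⟨j, hj⟩ := exists_nat_one_div_lt hε
      have := hγ j w α (hw j) hα
      linarith
    rw [map_sub] at h0
    exact sub_eq_zero.1 (norm_le_zero_iff.1 h0)
  obtain ⟨η, hη, h1⟩ := h1
  have key : ∀ j : ℕ, ∃ (g : G) (γ : W) (r : ℝ), j * η ≤ r ∧ r ≤ 1 / 4 ∧ f g = (r : T) ∧
      (∀ ω, ‖A ω g‖ ≤ ‖t‖) ∧ ∀ ω, ¬ ρ ω ≤ (γ : WithTop W) → A ω g = 0 := by
    intro j
    induction j with
    | zero =>
      exact ⟨0, Classical.arbitrary W, 0, by simp, by norm_num, by simp, by simp, by simp⟩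
    | succ j ih =>
      obtain ⟨g, γ, r, hr1, hr2, hg, hA, hz⟩ := ih
      obtain ⟨α, β, hα, hβ, hd⟩ := h1 γ
      have hα' : (γ : WithTop W) ≤ α := WithTop.coe_le_coe.2 hα
      have hβ' : (α : WithTop W) ≤ β := WithTop.coe_le_coe.2 hβ
      have d1 : ∀ ω, ρ ω ≤ (α : WithTop W) → A ω (y β - y α) = 0 := fun ω h => by
        rw [map_sub, hy, hy, if_pos h, if_pos (h.trans hβ'), sub_self]
      have d2 : ∀ ω, ¬ ρ ω ≤ (β : WithTop W) → A ω (y β - y α) = 0 := fun ω h => by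
        rw [map_sub, hy, hy, if_neg h, if_neg fun h' => h (h'.trans hβ'), sub_self]
      have d3 : ∀ ω, ‖A ω (y β - y α)‖ ≤ ‖t‖ := fun ω => by
        by_cases h : ρ ω ≤ (α : WithTop W)
        · rw [d1 ω h, norm_zero]
          exact norm_nonneg _
        · rw [map_sub, hy, hy, if_neg h, sub_zero]
          split_ifs
          · exact le_rfl
          · rw [norm_zero]
            exact norm_nonneg _
      obtain ⟨s, hs1, hs2, -⟩ := T_lift (f (y β - y α))
      have hs3 : |s| ≤ 1 / 4 := hs2 ▸ hf _ fun ω => (d3 ω).trans ht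
      obtain ⟨d, e1, e2, e3, e4⟩ : ∃ d : G, f d = ((|s| : ℝ) : T) ∧
          (∀ ω, ρ ω ≤ (α : WithTop W) → A ω d = 0) ∧
          (∀ ω, ¬ ρ ω ≤ (β : WithTop W) → A ω d = 0) ∧ ∀ ω, ‖A ω d‖ ≤ ‖t‖ := by
        rcases le_total 0 s with h | h
        · exact ⟨_, by rw [abs_of_nonneg h, hs1], d1, d2, d3⟩
        · refine ⟨-(y β - y α), ?_, fun ω h' => ?_, fun ω h' => ?_, fun ω => ?_⟩
          · rw [abs_of_nonpos h, map_neg, ← hs1, AddCircle.coe_neg]
          · rw [map_neg, d1 ω h', neg_zero]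
          · rw [map_neg, d2 ω h', neg_zero]
          · rw [map_neg, norm_neg]
            exact d3 ω
      have hn : ∀ ω, ‖A ω (g + d)‖ ≤ ‖t‖ := fun ω => by
        rw [map_add]
        by_cases h : ρ ω ≤ (α : WithTop W)
        · rw [e2 ω h, add_zero]
          exact hA ω
        · rw [hz ω fun h' => h (h'.trans hα'), zero_add]
          exact e4 ω
      have hfe : f (g + d) = ((r + |s| : ℝ) : T) := by
        rw [map_add, hg, e1, AddCircle.coe_add]
      have hr0 : 0 ≤ r := le_trans (by positivity) hr1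
      have hrs : 0 ≤ r + |s| := add_nonneg hr0 (abs_nonneg s)
      have hle : r + |s| ≤ 1 / 4 := by
        have h2 := hf _ fun ω => (hn ω).trans ht
        rw [hfe, T_norm_coe (by rw [abs_of_nonneg hrs]; linarith), abs_of_nonneg hrs] at h2
        exact h2
      refine ⟨g + d, β, r + |s|, ?_, hle, hfe, hn, fun ω h => ?_⟩
      · rw [hs2] at hd
        push_cast
        linarith
      · rw [map_add, hz ω fun h' => h ((h'.trans hα').trans hβ'), e3 ω h, add_zero]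
  obtain ⟨j, hj⟩ := exists_nat_gt (1 / 4 / η)
  obtain ⟨-, -, r, h2, h3, -⟩ := key j
  rw [div_lt_iff₀ hη] at hj
  linarith

end Pool.Agent.Lib.MP_c8715f_al.CL
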