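import Pool.Agent.Lib.MP_c8715f_al.CL.Base

/-! Elements of large order independent of a countable set. -/

set_option autoImplicit false

open Filter Topology Set

namespace Pool.Agent.Lib.MP_c8715f_al.CL

theorem far_closure_countable {G : Type} [AddCommGroup G] (D : Set G) (hD : D.Countable) :
    ((AddSubgroup.closure D : AddSubgroup G) : Set G).Countable := by
  have : Countable D := hD.to_subtype
  have h1 : ((AddSubgroup.closure D : AddSubgroup G) : Set G) ⊆
      Set.range (Finsupp.linearCombination ℤ (fun x : D => (x : G))) := by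
    intro y hy
    have h2 : y ∈ Submodule.span ℤ D := by
      have := Submodule.span_int_eq_addSubgroupClosure D
      rw [← this] at hy
      exact hy
    have h3 : y ∈ LinearMap.range (Finsupp.linearCombination ℤ (fun x : D => (x : G))) := by
      rw [Finsupp.range_linearCombination, Subtype.range_coe]
      exact h2
    exact h3
  exact (Set.countable_range _).mono h1

theorem far {G : Type} [AddCommGroup G] (n : ℕ) (hn : 1 ≤ n) (hc : ¬ Cn G n) (D : Set G)
    (hD : D.Countable) :
    ∃ z : G, n • z ≠ 0 ∧ ∀ c : ℤ, c • z ∈ AddSubgroup.closure D → c • z = 0 := by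
  classical
  have hH := far_closure_countable D hD
  set H : AddSubgroup G := AddSubgroup.closure D with hHdef
  by_contra hcon
  push Not at hcon
  let A : ℕ → Set G := fun m => {x | m • x ∈ H}
  let Sm : Set G → Prop := fun B => ((fun x : G => n • x) '' B).Countable
  have hex : ∃ m, 1 ≤ m ∧ ¬ Sm (A m) := by
    by_contra hall
    push Not at hall
    apply hc
    have hsub : (Set.range fun x : G => n • x) ⊆
        {0} ∪ ⋃ m : ℕ, (fun x : G => n • x) '' A (m + 1) := by
      rintro _ ⟨x, rfl⟩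
      by_cases hx : n • x = 0
      · exact Or.inl hx
      · obtain ⟨c, hc1, hc2⟩ := hcon x hx
        have hc0 : c ≠ 0 := by
          rintro rfl
          exact hc2 (zero_smul _ _)
        right
        refine Set.mem_iUnion.2 ⟨c.natAbs - 1, x, ?_, rfl⟩
        have e : c.natAbs - 1 + 1 = c.natAbs := by omega
        show (c.natAbs - 1 + 1) • x ∈ H
        rw [e, ← natCast_zsmul]
        rcases Int.natAbs_eq c with h | h
        · rw [← h]; exact hc1
        · have h' : (c.natAbs : ℤ) = -c := by omega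
          rw [h', neg_smul]
          exact H.neg_mem hc1
    exact ((Set.countable_singleton _).union
      (Set.countable_iUnion fun m => hall (m + 1) (by omega))).mono hsub
  obtain ⟨hm1, hm2⟩ := Nat.find_spec hex
  set m := Nat.find hex with hm
  have hlow : ∀ j, 1 ≤ j → j < m → Sm (A j) := by
    intro j hj1 hj2
    by_contra hj
    exact Nat.find_min hex hj2 ⟨hj1, hj⟩
  let Z : Set G := {z | m • z = 0}
  have hZ : ¬ Sm Z := by
    intro hZ
    apply hm2
    have hfib : ∀ y : G, Sm {x | m • x = y} := by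
      intro y
      by_cases hy : ∃ x0 : G, m • x0 = y
      · obtain ⟨x0, hx0⟩ := hy
        refine (Set.Countable.image hZ (fun t => n • x0 + t)).mono ?_
        rintro _ ⟨x, hx, rfl⟩
        refine ⟨n • (x - x0), ⟨x - x0, ?_, rfl⟩, ?_⟩
        · show m • (x - x0) = 0
          have hx' : m • x = y := hx
          rw [smul_sub, hx', hx0, sub_self]
        · show n • x0 + n • (x - x0) = n • x
          rw [smul_sub]; abel
      · refine Set.countable_empty.mono ?_
        rintro _ ⟨x, hx, rfl⟩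
        exact (hy ⟨x, hx⟩).elim
    refine (Set.Countable.biUnion hH fun y _ => hfib y).mono ?_
    rintro _ ⟨x, hx, rfl⟩
    exact Set.mem_biUnion (x := m • x) hx ⟨x, rfl, rfl⟩
  have hz : ∃ z ∈ Z, n • z ≠ 0 ∧ ∀ j, 1 ≤ j → j < m → z ∉ A j := by
    by_contra hno
    push Not at hno
    apply hZ
    have hsub : (fun x : G => n • x) '' Z ⊆
        {0} ∪ ⋃ j : {j : ℕ // 1 ≤ j ∧ j < m}, (fun x : G => n • x) '' A j.1 := by
      rintro _ ⟨x, hx, rfl⟩
      by_cases hx0 : n • x = 0
      · exact Or.inl hx0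
      · obtain ⟨j, hj1, hj2, hj3⟩ := hno x hx hx0
        exact Or.inr (Set.mem_iUnion.2 ⟨⟨j, hj1, hj2⟩, x, hj3, rfl⟩)
    exact ((Set.countable_singleton _).union
      (Set.countable_iUnion fun j : {j : ℕ // 1 ≤ j ∧ j < m} =>
        hlow j.1 j.2.1 j.2.2)).mono hsub
  obtain ⟨z, hzZ, hz0, hzA⟩ := hz
  obtain ⟨c, hc1, hc2⟩ := hcon z hz0
  have hmz : (m : ℤ) • z = 0 := by
    rw [natCast_zsmul]; exact hzZ
  have hm0 : (0 : ℤ) < m := by exact_mod_cast hm1
  have hr0 := Int.emod_nonneg c hm0.ne'
  have hr1 := Int.emod_lt_of_pos c hm0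
  have hcz : c • z = (c % m).toNat • z := by
    rw [← natCast_zsmul, Int.toNat_of_nonneg hr0]
    conv_lhs => rw [← Int.emod_add_ediv_mul c m]
    rw [add_smul, mul_smul, hmz, smul_zero, add_zero]
  by_cases hr : (c % m).toNat = 0
  · apply hc2
    rw [hcz, hr, zero_smul]
  · refine hzA (c % m).toNat (by omega) (by omega) ?_
    show (c % m).toNat • z ∈ H
    rw [← hcz]
    exact hc1

theorem far_unif {G : Type} [AddCommGroup G] (h : ∀ n, 1 ≤ n → ¬ Cn G n) (k : ℕ) :
    ∃ m : ℕ, (m = 0 ∨ k + 2 ≤ m) ∧ ∀ D : Set G, D.Countable →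
      ∃ z : G, addOrderOf z = m ∧ ∀ c : ℤ, c • z ∈ AddSubgroup.closure D → c • z = 0 := by
  classical
  by_contra hcon
  push Not at hcon
  have hD : ∀ m : ℕ, ∃ D : Set G, D.Countable ∧ ((m = 0 ∨ k + 2 ≤ m) →
      ∀ z : G, addOrderOf z = m → ∃ c : ℤ, c • z ∈ AddSubgroup.closure D ∧ c • z ≠ 0) := by
    intro m
    by_cases hm : m = 0 ∨ k + 2 ≤ m
    · obtain ⟨D, hD1, hD2⟩ := hcon m hm
      exact ⟨D, hD1, fun _ => hD2⟩
    · exact ⟨∅, Set.countable_empty, fun h' => (hm h').elim⟩
  choose D hD1 hD2 using hD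
  have hn : 1 ≤ (k + 1).factorial := Nat.factorial_pos _
  obtain ⟨z, hz0, hz⟩ := far (k + 1).factorial hn (h _ hn) (⋃ m, D m) (Set.countable_iUnion hD1)
  have hord : addOrderOf z = 0 ∨ k + 2 ≤ addOrderOf z := by
    by_contra hno
    push Not at hno
    apply hz0
    rw [← addOrderOf_dvd_iff_nsmul_eq_zero]
    exact Nat.dvd_factorial (Nat.pos_of_ne_zero hno.1) (by omega)
  obtain ⟨c, hc1, hc2⟩ := hD2 _ hord z rfl
  exact hc2 (hz c (AddSubgroup.closure_mono (Set.subset_iUnion D _) hc1))

end Pool.Agent.Lib.MP_c8715f_al.CL
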