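import Pool.Agent.Lib.MP_c8715f_al.CL.Circ

/-! The dual group in additive terms. -/

set_option autoImplicit false

open Filter Topology Set

namespace Pool.Agent.Lib.MP_c8715f_al.CL

variable {G : Type} [AddCommGroup G] [TopologicalSpace G]

/-- the circle of length one as the unit circle -/
noncomputable def logH : T ≃ₜ Circle := AddCircle.homeomorphCircle one_ne_zero

theorem logH_add (x y : T) : logH (x + y) = logH x * logH y := by
  simp only [logH, AddCircle.homeomorphCircle_apply, AddCircle.toCircle_add]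

theorem logH_zero : logH 0 = 1 := by
  simp only [logH, AddCircle.homeomorphCircle_apply, AddCircle.toCircle_zero]

theorem logH_symm_mul (x y : Circle) : logH.symm (x * y) = logH.symm x + logH.symm y :=
  logH.injective (by simp [logH_add])

theorem logH_symm_one : logH.symm 1 = 0 := by rw [← logH_zero, logH.symm_apply_apply]

/-- the additive form of a character -/
noncomputable def logF (a : PontryaginDual (Multiplicative G)) : G →+ T :=
  AddMonoidHom.mk' (fun g => logH.symm (a (Multiplicative.ofAdd g))) fun x y => by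
    rw [ofAdd_add, map_mul, logH_symm_mul]

theorem logF_apply (a : PontryaginDual (Multiplicative G)) (g : G) :
    logF a g = logH.symm (a (Multiplicative.ofAdd g)) := rfl

theorem logF_one : logF (1 : PontryaginDual (Multiplicative G)) = 0 := by
  ext g
  exact logH_symm_one

theorem logF_mul (a b : PontryaginDual (Multiplicative G)) : logF (a * b) = logF a + logF b := by
  ext g
  exact logH_symm_mul _ _

theorem logF_nhds (W : Set (PontryaginDual (Multiplicative G))) :
    W ∈ 𝓝 (1 : PontryaginDual (Multiplicative G)) ↔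
      ∃ K : Set G, IsCompact K ∧ ∃ δ : ℝ, 0 < δ ∧ ∀ a, (∀ x ∈ K, ‖logF a x‖ ≤ δ) → a ∈ W := by
  have hi := ContinuousMonoidHom.isInducing_toContinuousMap (Multiplicative G) Circle
  constructor
  · intro hW
    let s : Set G × ℝ → Set (PontryaginDual (Multiplicative G)) := fun q =>
      {a | ∀ x ∈ q.1, ‖logF a x‖ ≤ q.2}
    have hb : (⨅ q ∈ {q : Set G × ℝ | IsCompact q.1 ∧ 0 < q.2}, 𝓟 (s q)).HasBasis
        (fun q => q ∈ {q : Set G × ℝ | IsCompact q.1 ∧ 0 < q.2}) s := by
      refine hasBasis_biInf_principal ?_ ⟨(∅, 1), isCompact_empty, one_pos⟩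
      rintro q ⟨h1, h2⟩ r ⟨h3, h4⟩
      exact ⟨(q.1 ∪ r.1, min q.2 r.2), ⟨h1.union h3, lt_min h2 h4⟩,
        fun a ha x hx => (ha x (Or.inl hx)).trans (min_le_left _ _),
        fun a ha x hx => (ha x (Or.inr hx)).trans (min_le_right _ _)⟩
    have hle : (⨅ q ∈ {q : Set G × ℝ | IsCompact q.1 ∧ 0 < q.2}, 𝓟 (s q)) ≤
        𝓝 (1 : PontryaginDual (Multiplicative G)) := by
      refine (hi.tendsto_nhds_iff (f := id)).2 (ContinuousMap.tendsto_nhds_compactOpen.2 ?_)
      intro K hK U hU hm
      rcases K.eq_empty_or_nonempty with rfl | ⟨y, hy⟩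
      · exact Eventually.of_forall fun a => mapsTo_empty _ _
      have h1 : logH ⁻¹' U ∈ 𝓝 (0 : T) := by
        refine (hU.preimage logH.continuous).mem_nhds ?_
        rw [mem_preimage, logH_zero]
        exact hm hy
      obtain ⟨δ, hδ, h2⟩ := Metric.nhds_basis_closedBall.mem_iff.1 h1
      refine hb.eventually_iff.2 ⟨(Multiplicative.toAdd '' K, δ), ⟨hK.image continuous_toAdd, hδ⟩,
        fun a ha x hx => ?_⟩
      have h3 := h2 (mem_closedBall_zero_iff.2 (ha _ ⟨x, hx, rfl⟩))
      rw [mem_preimage, logF_apply, logH.apply_symm_apply] at h3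
      exact h3
    obtain ⟨q, ⟨h1, h2⟩, h3⟩ := hb.mem_iff.1 (hle hW)
    exact ⟨q.1, h1, q.2, h2, fun a ha => h3 ha⟩
  · rintro ⟨K, hK, δ, hδ, h⟩
    have h1 := (ContinuousMap.isOpen_setOfPred_mapsTo (hK.image continuous_ofAdd)
      ((Metric.isOpen_ball (x := (0 : T)) (ε := δ)).preimage logH.symm.continuous)).preimage
      hi.continuous
    refine mem_of_superset (h1.mem_nhds ?_) fun a ha => h a fun x hx => ?_
    · rintro _ ⟨x, -, rfl⟩
      show logH.symm 1 ∈ Metric.ball 0 δ
      rw [logH_symm_one]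
      exact Metric.mem_ball_self hδ
    · exact (mem_ball_zero_iff.1 (ha ⟨x, hx, rfl⟩)).le

theorem exists_log : ∃ lg : PontryaginDual (Multiplicative G) → (G →+ T),
    lg 1 = 0 ∧ (∀ a b, lg (a * b) = lg a + lg b) ∧ (∀ a, lg a⁻¹ = -lg a) ∧
    (∀ a, Continuous (lg a)) ∧ Function.Injective lg ∧
    (∀ f : G →+ T, Continuous f → ∃ a, lg a = f) ∧
    ∀ W : Set (PontryaginDual (Multiplicative G)), W ∈ 𝓝 (1 : PontryaginDual (Multiplicative G)) ↔
      ∃ K : Set G, IsCompact K ∧ ∃ δ : ℝ, 0 < δ ∧ ∀ a, (∀ x ∈ K, ‖lg a x‖ ≤ δ) → a ∈ W := by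
  refine ⟨logF, logF_one, logF_mul, fun a => ?_, fun a => ?_, fun a b h => ?_, fun f hf => ?_,
    logF_nhds⟩
  · rw [eq_neg_iff_add_eq_zero, ← logF_mul, inv_mul_cancel, logF_one]
  · exact logH.symm.continuous.comp ((map_continuous a).comp continuous_ofAdd)
  · exact PontryaginDual.ext fun x => logH.symm.injective (DFunLike.congr_fun h x.toAdd)
  · refine ⟨⟨MonoidHom.mk' (fun x => logH (f x.toAdd)) fun x y => by
      rw [toAdd_mul, map_add, logH_add], logH.continuous.comp (hf.comp continuous_toAdd)⟩, ?_⟩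
    ext g
    exact logH.symm_apply_apply _

end Pool.Agent.Lib.MP_c8715f_al.CL
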