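import Pool.Agent.Lib.MP_c8715f_al.CL.Circ

/-! Many independent elements of one prime order. -/

set_option autoImplicit false

open Filter Topology Set

namespace Pool.Agent.Lib.MP_c8715f_al.CL

theorem Spread_pre (G : Type) [AddCommGroup G] (a : ℕ) (S : G → Prop) :
    Cardinal.mk {x : G // S (a • x)} ≤
      Cardinal.mk {x : G // a • x = 0} * Cardinal.mk {y : G // S y} := by
  rw [Cardinal.mul_def]
  have hσ : ∀ x : G, a • Function.invFun (fun x : G => a • x) (a • x) = a • x := fun x =>
    Function.invFun_eq (f := fun x : G => a • x) ⟨x, rfl⟩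
  refine Cardinal.mk_le_of_injective (f := fun x =>
    (⟨x.1 - Function.invFun (fun x : G => a • x) (a • x.1), by rw [smul_sub, hσ, sub_self]⟩,
      ⟨a • x.1, x.2⟩)) ?_
  intro x y h
  have h1 := congrArg (fun z => z.1.1) h
  have h2 := congrArg (fun z => z.2.1) h
  simp only at h1 h2
  rw [h2] at h1
  exact Subtype.ext (sub_left_injective h1)

theorem big_prime (G : Type) [AddCommGroup G] [Uncountable G] (n : ℕ) (hn : 1 ≤ n)
    (hc : Cn G n) : ∃ q : ℕ, q.Prime ∧ Cardinal.mk G ≤ Cardinal.mk {x : G // q • x = 0} := by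
  by_contra hcon
  push Not at hcon
  have hG : Cardinal.aleph0 < Cardinal.mk G := Cardinal.aleph0_lt_mk
  have key : ∀ m : ℕ, m ≠ 0 → Cardinal.mk {x : G // m • x = 0} < Cardinal.mk G := by
    intro m
    induction m using induction_on_primes with
    | zero => intro h; exact absurd rfl h
    | one =>
      intro _
      have : Subsingleton {x : G // (1 : ℕ) • x = 0} :=
        ⟨fun x y => Subtype.ext (by
          have hx := x.2
          have hy := y.2
          rw [one_smul] at hx hy
          rw [hx, hy])⟩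
      exact lt_of_le_of_lt (Cardinal.mk_le_aleph0_iff.2 inferInstance) hG
    | prime_mul q m hq ih =>
      intro h
      have hm : m ≠ 0 := fun h0 => h (by rw [h0, mul_zero])
      have h1 := Spread_pre G q (fun y => m • y = 0)
      have h2 : Cardinal.mk {x : G // (q * m) • x = 0} =
          Cardinal.mk {x : G // m • q • x = 0} := by
        congr 2
        ext x
        rw [mul_comm, mul_smul]
      rw [h2]
      exact lt_of_le_of_lt h1 (Cardinal.mul_lt_of_lt hG.le (hcon q hq) (ih hm))
  have h1 := Spread_pre G n (fun y => y ∈ Set.range fun x : G => n • x)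
  have h2 : Cardinal.mk G ≤ Cardinal.mk {x : G // n • x ∈ Set.range fun x : G => n • x} :=
    Cardinal.mk_le_of_injective (f := fun x => ⟨x, x, rfl⟩) fun x y h => congrArg Subtype.val h
  have h3 : Cardinal.mk {y : G // y ∈ Set.range fun x : G => n • x} < Cardinal.mk G :=
    lt_of_le_of_lt (Cardinal.le_aleph0_iff_set_countable.2 hc) hG
  exact absurd (h2.trans h1) (not_le.2 (Cardinal.mul_lt_of_lt hG.le (key n (by omega)) h3))

theorem spread_aux {G V : Type} [AddCommGroup G] [Uncountable G] [AddCommGroup V] (q : ℕ)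
    [Fact q.Prime] [Module (ZMod q) V] (e : V →+ G) (he : Function.Injective e)
    (hcard : Cardinal.mk G ≤ Cardinal.mk V) :
    ∃ b : G → V, ∀ D : Set G, D.Countable →
      ∃ f : G →+ T, (∀ x ∈ D, f x = 0) ∧ {g | f (e (b g)) = 0}.Countable := by
  classical
  let B := Module.Basis.ofVectorSpace (ZMod q) V
  have h1 : Cardinal.mk G ≤ Cardinal.mk (Module.Basis.ofVectorSpaceIndex (ZMod q) V →₀ ZMod q) :=
    hcard.trans_eq (Cardinal.mk_congr B.repr.toEquiv)
  have hG : Cardinal.aleph0 < Cardinal.mk G := Cardinal.aleph0_lt_mk_iff.2 inferInstance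
  have hinf : Infinite (Module.Basis.ofVectorSpaceIndex (ZMod q) V) := by
    by_contra h
    have : Finite (Module.Basis.ofVectorSpaceIndex (ZMod q) V) := not_infinite_iff_finite.1 h
    exact absurd (h1.trans Cardinal.mk_le_aleph0) (not_le.2 hG)
  rw [Cardinal.mk_finsupp_of_infinite,
    max_eq_left (Cardinal.mk_le_aleph0.trans (Cardinal.aleph0_le_mk _))] at h1
  obtain ⟨j⟩ := (Cardinal.le_def _ _).1 h1
  refine ⟨fun g => B (j g), fun D hD => ?_⟩
  have : Countable D := hD.to_subtype
  let H : AddSubgroup G := (Submodule.span ℤ (range (Subtype.val : D → G))).toAddSubgroup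
  have hH : (H : Set G).Countable :=
    countable_coe_iff.1
      (inferInstanceAs (Countable (Submodule.span ℤ (range (Subtype.val : D → G)))))
  let J : Set (Module.Basis.ofVectorSpaceIndex (ZMod q) V) :=
    ⋃ v ∈ e ⁻¹' H, ((B.repr v).support : Set _)
  have hJ : J.Countable := (hH.preimage he).biUnion fun v _ => Finset.countable_toSet _
  let φ : V →ₗ[ZMod q] ZMod q := B.constr (ZMod q) fun i => if i ∈ J then 0 else 1
  have hφ : ∀ v : V, e v ∈ H → φ v = 0 := by
    intro v hv
    rw [Module.Basis.constr_apply, Finsupp.sum]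
    refine Finset.sum_eq_zero fun i hi => ?_
    have : i ∈ J := mem_iUnion₂.2 ⟨v, hv, hi⟩
    rw [if_pos this, smul_zero]
  obtain ⟨k, hk⟩ := ext_div T_dv ((QuotientAddGroup.mk' H).comp e)
    ((ZMod.toAddCircle (N := q)).comp φ.toAddMonoidHom) fun v hv => by
      have h2 : φ v = 0 := hφ v ((QuotientAddGroup.eq_zero_iff _).1 hv)
      change ZMod.toAddCircle (φ v) = 0
      rw [h2, map_zero]
  refine ⟨k.comp (QuotientAddGroup.mk' H), fun x hx => ?_,
    (hJ.preimage j.injective).mono fun g hg => ?_⟩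
  · have h2 : QuotientAddGroup.mk' H x = 0 :=
      (QuotientAddGroup.eq_zero_iff _).2 (Submodule.subset_span ⟨⟨x, hx⟩, rfl⟩)
    change k (QuotientAddGroup.mk' H x) = 0
    rw [h2, map_zero]
  · by_contra hj
    have h2 : ZMod.toAddCircle (φ (B (j g))) = 0 := (hk (B (j g))).symm.trans hg
    have h3 : φ (B (j g)) = 1 := by
      rw [Module.Basis.constr_basis]
      exact if_neg hj
    rw [h3, ← map_zero (ZMod.toAddCircle (N := q))] at h2
    exact one_ne_zero (ZMod.toAddCircle_injective q h2)

theorem spread (G : Type) [AddCommGroup G] [Uncountable G] (n : ℕ) (hn : 1 ≤ n) (hc : Cn G n) :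
    ∃ (q : ℕ) (b : G → G), 1 ≤ q ∧ (∀ g, q • b g = 0) ∧ ∀ D : Set G, D.Countable →
      ∃ f : G →+ T, (∀ x ∈ D, f x = 0) ∧ {g | f (b g) = 0}.Countable := by
  obtain ⟨q, hq, hcard⟩ := big_prime G n hn hc
  have : Fact q.Prime := ⟨hq⟩
  have hV : ∀ v : (nsmulAddMonoidHom (α := G) q).ker, q • v = 0 := fun v => Subtype.ext v.2
  obtain ⟨b, hb⟩ := @spread_aux G (nsmulAddMonoidHom (α := G) q).ker _ _ _ q _
    (AddCommGroup.zmodModule hV) (AddSubgroup.subtype _) Subtype.val_injective hcard
  exact ⟨q, fun g => b g, hq.one_le, fun g => (b g).2, hb⟩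

end Pool.Agent.Lib.MP_c8715f_al.CL
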