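import Pool.Agent.Lib.MP_c8715f_al.CL.Equi
import Pool.Agent.Lib.MP_c8715f_al.CL.Subm
import Pool.Agent.Lib.MP_c8715f_al.CL.Spread

/-! The discrete topology on a group that carries a submeasure. -/

set_option autoImplicit false

open Filter Topology Set

namespace Pool.Agent.Lib.MP_c8715f_al.CL

theorem negA (G : Type) [AddCommGroup G] [TopologicalSpace G] [DiscreteTopology G] (n : ℕ)
    (hn : 1 ≤ n) (hc : Cn G n) (h : CarriesSubmeasure G) :
    ∃ p : (G →+ T) → ℝ, PN p ∧ SeqC p ∧ ¬ Cont p := by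
  have := uncountable_of_carries h
  obtain ⟨ν, hν, h0, hpos⟩ := carries_iff.1 h
  obtain ⟨q, b, hq, hb, hD⟩ := spread G n hn hc
  refine ⟨fun f => ν {g | f (b g) ≠ 0}, ⟨?_, fun f => hν.nonneg _, ⟨ν univ, fun f =>
    hν.mono _ _ (subset_univ _)⟩, fun f _ => ?_, fun f g _ _ => ?_⟩, fun f _ hf => ?_, fun hC => ?_⟩
  · have h1 : {g | (0 : G →+ T) (b g) ≠ 0} = ∅ := by simp
    simp only [h1]
    exact hν.empty
  · have h1 : {g | (-f) (b g) ≠ 0} = {g | f (b g) ≠ 0} := by simp
    simp only [h1]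
  · refine (hν.mono _ _ fun x hx => ?_).trans (hν.add _ _)
    by_contra h1
    simp only [mem_union, mem_ofPred_eq, not_or, not_not] at h1
    exact hx (by rw [AddMonoidHom.add_apply, h1.1, h1.2, add_zero])
  · have h1 := hν.cont (fun k => {g | ∃ i, k ≤ i ∧ f i (b g) ≠ 0})
      (fun j k hjk g ⟨i, hi, h2⟩ => ⟨i, hjk.trans hi, h2⟩) (by
        refine eq_empty_of_forall_notMem fun g hg => ?_
        have h2 : Tendsto (fun i => (q : ℝ) * ‖f i (b g)‖) atTop (𝓝 0) := by
          simpa using (hf.pt (b g)).norm.const_mul (q : ℝ)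
        obtain ⟨k, hk⟩ := eventually_atTop.1 (h2.eventually_le_const (u := 1 / 2) (by norm_num))
        obtain ⟨i, hi, h3⟩ := mem_iInter.1 hg k
        exact h3 (T_tors q hq _ (by rw [← map_nsmul, hb, map_zero]) (hk i hi)))
    refine squeeze_zero (fun i => hν.nonneg _) (fun i => hν.mono _ _ fun g hg => ?_) h1
    exact ⟨i, le_rfl, hg⟩
  · obtain ⟨K, hK, δ, hδ, h1⟩ := hC (ν univ / 2) (half_pos hpos)
    obtain ⟨f, hf1, hf2⟩ := hD K hK.finite_of_discrete.countable
    have h2 := h1 f continuous_of_discreteTopology fun x hx => by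
      rw [hf1 x hx, norm_zero]
      exact hδ.le
    have h3 := hν.countable_null h0 hf2
    have h4 := hν.add {g | f (b g) ≠ 0} {g | f (b g) = 0}
    have h5 := hν.mono univ ({g | f (b g) ≠ 0} ∪ {g | f (b g) = 0}) fun g _ => (em _).symm
    simp only at h2
    linarith

end Pool.Agent.Lib.MP_c8715f_al.CL
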