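import Pool.Agent.Lib.MP_c8715f_al.CL.Unif
import Pool.Agent.Lib.MP_c8715f_al.CL.EvC

/-! The bad pseudonorm. -/

set_option autoImplicit false

open Filter Topology Set

namespace Pool.Agent.Lib.MP_c8715f_al.CL

variable {G : Type} [AddCommGroup G] [TopologicalSpace G] [IsTopologicalAddGroup G]

theorem negB [TopologicalSpace.MetrizableSpace G] {Ω W : Type} [LinearOrder W] [Nonempty W]
    (hW : ∀ u : ℕ → W, ∃ w, ∀ i, u i ≤ w) {A : Ω → G →+ T} {B : ℕ → G →+ T} (hg : Gen A B)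
    (ρ : Ω → WithTop W) (ι : W → Ω) (s : ℕ → ℝ) (x : W × ℕ → G)
    (hs : ∀ k, 0 < s k ∧ s k ≤ 1 / (k + 2))
    (hx : ∀ ω α k, A ω (x (α, k)) = if ρ ω ≤ (α : WithTop W) then (s k : T) else 0)
    (hρ : ∀ γ, ρ (ι γ) = γ) (hι : ∀ g, ∃ β, ∀ γ, β ≤ γ → A (ι γ) g = 0) :
    ¬ TopologicalSpace.SeparableSpace G ∧ ∃ p : (G →+ T) → ℝ, PN p ∧ SeqC p ∧ ¬ Cont p := by
  have hs0 : ‖((s 0 : ℝ) : T)‖ = s 0 := by
    have h1 := hs 0
    have h2 : |s 0| ≤ 1 / 2 := by
      rw [abs_of_pos h1.1]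
      simpa using h1.2
    rw [T_norm_coe h2, abs_of_pos h1.1]
  have hval : ∀ γ α : W, γ ≤ α → A (ι γ) (x (α, 0)) = ((s 0 : ℝ) : T) := by
    intro γ α h
    rw [hx, hρ, if_pos (WithTop.coe_le_coe.2 h)]
  let U : Ultrafilter W := Ultrafilter.of atTop
  have hU : (U : Filter W) ≤ atTop := Ultrafilter.of_le _
  have hlim : ∀ f : G →+ T, ∃ a : T, Tendsto (fun α => f (x (α, 0))) (U : Filter W) (𝓝 a) := by
    intro f
    obtain ⟨a, -, ha⟩ := isCompact_univ.ultrafilter_le_nhds (U.map fun α => f (x (α, 0)))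
      (by simp)
    exact ⟨a, ha⟩
  choose Φ hΦ using hlim
  refine ⟨fun hsep => ?_, fun f => ‖Φ f‖, ⟨?_, fun f => norm_nonneg _,
    ⟨1 / 2, fun f => T_le_half _⟩, fun f _ => ?_, fun f g _ _ => ?_⟩, ?_, ?_⟩
  · obtain ⟨γ, hγ⟩ := vanish hW hg ι hι (K := univ)
      (TopologicalSpace.IsSeparable.of_separableSpace _)
    have h1 := hγ (x (γ, 0)) (mem_univ _)
    rw [hval γ γ le_rfl] at h1
    rw [h1, norm_zero] at hs0
    exact (hs 0).1.ne hs0
  · have : Φ 0 = 0 := tendsto_nhds_unique (hΦ 0) (by simp)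
    simp [this]
  · have : Φ (-f) = -Φ f := tendsto_nhds_unique (hΦ (-f)) (by simpa using (hΦ f).neg)
    simp [this]
  · have : Φ (f + g) = Φ f + Φ g :=
      tendsto_nhds_unique (hΦ (f + g)) (by simpa using (hΦ f).add (hΦ g))
    rw [this]
    exact norm_add_le _ _
  · intro f hf hn
    obtain ⟨δ, hδ, hev⟩ := unif hg f hf hn
    rw [Metric.tendsto_nhds]
    intro ε hε
    obtain ⟨m, hm⟩ := exists_nat_gt (1 / ε)
    have hm0 : (0 : ℝ) < m := lt_trans (by positivity) hm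
    have hm1 : 0 < m := by exact_mod_cast hm0
    have hm2 : (1 : ℝ) ≤ m := by exact_mod_cast hm1
    obtain ⟨k, hk⟩ := exists_nat_gt (m / δ)
    have hsk := hs k
    have hmk : m * s k ≤ δ := by
      rw [div_lt_iff₀ hδ] at hk
      have h1 : s k * (k + 2) ≤ 1 := by
        have := hsk.2
        rwa [le_div_iff₀ (by positivity)] at this
      have h2 : m * s k ≤ k * δ * s k := mul_le_mul_of_nonneg_right hk.le hsk.1.le
      have h3 : 0 ≤ δ * (1 - s k * (k + 2)) := mul_nonneg hδ.le (by linarith)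
      have h4 : 0 < δ * s k := mul_pos hδ hsk.1
      nlinarith
    have hkδ : ‖((s k : ℝ) : T)‖ ≤ δ := by
      refine (T_norm_le _).trans ?_
      rw [abs_of_pos hsk.1]
      nlinarith [hsk.1]
    set a : ℕ := ⌊s 0 / s k⌋₊ with ha
    have ha1 : a * s k ≤ s 0 := by
      have := Nat.floor_le (div_pos (hs 0).1 hsk.1).le
      rwa [le_div_iff₀ hsk.1] at this
    have ha2 : s 0 ≤ (a + 1) * s k := by
      have := (Nat.lt_floor_add_one (s 0 / s k)).le
      rwa [div_le_iff₀ hsk.1] at this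
    have hz : ∀ α ω, ‖A ω (x (α, 0) - a • x (α, k))‖ ≤ s k := by
      intro α ω
      rw [map_sub, map_nsmul, hx, hx]
      split_ifs
      · have e : ((s 0 : ℝ) : T) - a • ((s k : ℝ) : T) = ((s 0 - a * s k : ℝ) : T) := by
          rw [AddCircle.coe_sub, ← AddCircle.coe_nsmul, nsmul_eq_mul]
        rw [e]
        refine (T_norm_le _).trans ?_
        rw [abs_le]
        constructor <;> nlinarith [hsk.1]
      · simpa using hsk.1.le
    have hβ : ∀ i, ∃ β, (∀ g, (∀ ω, ‖A ω g‖ ≤ δ) → ‖f i g‖ ≤ 1 / 4) →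
        ∀ α, β ≤ α → f i (x (α, k)) = f i (x (β, k)) := by
      intro i
      by_cases hi : ∀ g, (∀ ω, ‖A ω g‖ ≤ δ) → ‖f i g‖ ≤ 1 / 4
      · obtain ⟨β, hβ⟩ := ev_const hW A ρ (fun α => x (α, k)) _ (fun ω α => hx ω α k) δ hkδ
          (f i) hi
        exact ⟨β, fun _ => hβ⟩
      · exact ⟨Classical.arbitrary W, fun h => absurd h hi⟩
    choose β hβ using hβ
    obtain ⟨w, hw⟩ := hW β
    have hpt := (tendsto_zero_iff_norm_tendsto_zero.1 (hn.pt (a • x (w, k)))).eventually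
      (gt_mem_nhds (half_pos hε))
    filter_upwards [hev, hpt] with i hi hi2
    rw [dist_zero_right, norm_norm]
    have h1 : ‖Φ (f i)‖ ≤ 1 / (4 * m) + ‖f i (a • x (w, k))‖ := by
      refine le_of_tendsto (hΦ (f i)).norm ?_
      filter_upwards [hU (eventually_ge_atTop w)] with α hα
      have h2 : ‖f i (x (α, 0) - a • x (α, k))‖ ≤ 1 / (4 * m) := by
        refine T_small m hm1 _ fun j hj => ?_
        rw [← map_nsmul]
        refine hi _ fun ω => ?_
        rw [map_nsmul]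
        refine (norm_nsmul_le).trans ?_
        have hj' : (j : ℝ) ≤ m := by exact_mod_cast hj
        have h3 := mul_le_mul hj' (hz α ω) (norm_nonneg _) hm0.le
        linarith
      have h3 : f i (x (α, k)) = f i (x (w, k)) := by
        rw [hβ i hi α ((hw i).trans hα), hβ i hi w (hw i)]
      have h4 : f i (x (α, 0)) = f i (x (α, 0) - a • x (α, k)) + f i (a • x (w, k)) := by
        rw [map_sub, map_nsmul, map_nsmul, h3, sub_add_cancel]
      rw [h4]
      exact (norm_add_le _ _).trans (add_le_add h2 le_rfl)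
    have h5 : 1 / (4 * (m : ℝ)) ≤ ε / 2 := by
      rw [div_lt_iff₀ hε] at hm
      rw [div_le_iff₀ (by positivity)]
      nlinarith
    linarith
  · intro hc
    obtain ⟨K, hK, δ, hδ, hh⟩ := hc (s 0 / 2) (half_pos (hs 0).1)
    have hsep : TopologicalSpace.IsSeparable K := by
      let _ := TopologicalSpace.metrizableSpaceMetric G
      exact hK.isSeparable
    obtain ⟨γ, hγ⟩ := vanish hW hg ι hι hsep
    have h1 := hh (A (ι γ)) (gen_cont hg _) fun g hg' => by
      rw [hγ g hg', norm_zero]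
      exact hδ.le
    have h2 : Φ (A (ι γ)) = ((s 0 : ℝ) : T) := by
      refine tendsto_nhds_unique (hΦ _) (tendsto_const_nhds.congr' ?_)
      filter_upwards [hU (eventually_ge_atTop γ)] with α hα
      exact (hval γ α hα).symm
    have h3 : ‖Φ (A (ι γ))‖ ≤ s 0 / 2 := h1
    rw [h2, hs0] at h3
    linarith [(hs 0).1]

end Pool.Agent.Lib.MP_c8715f_al.CL
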