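import Pool.Agent.Lib.MP_c8715f_al.CL.Equi

/-! The three-space step. -/

set_option autoImplicit false

open Filter Topology Set

namespace Pool.Agent.Lib.MP_c8715f_al.CL

/-- null sequences in the circle -/
def threeC0 : AddSubgroup (ℕ → T) where
  carrier := {u | Tendsto u atTop (𝓝 0)}
  add_mem' := fun {a b} ha hb => by
    have h := Tendsto.add ha hb
    rw [add_zero] at h
    exact h
  zero_mem' := tendsto_const_nhds
  neg_mem' := fun {a} ha => by
    have h := Tendsto.neg ha
    rw [neg_zero] at h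
    exact h

lemma three_dv : Dv threeC0 := by
  intro n hn y
  choose z hz hz' using fun k => T_div_small n hn (y.1 k)
  refine ⟨⟨z, ?_⟩, Subtype.ext (funext hz)⟩
  have hy : Tendsto y.1 atTop (𝓝 0) := y.2
  exact squeeze_zero_norm hz' (tendsto_zero_iff_norm_tendsto_zero.mp hy)

/-- a sequence of characters that is null on a subgroup agrees there with a null sequence -/
lemma three_split {G : Type} [AddCommGroup G] (N : AddSubgroup G) (f : ℕ → G →+ T)
    (h : ∀ x ∈ N, Tendsto (fun k => f k x) atTop (𝓝 0)) :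
    ∃ ψ : ℕ → G →+ T, (∀ k, ∀ x ∈ N, ψ k x = f k x) ∧
      ∀ x, Tendsto (fun k => ψ k x) atTop (𝓝 0) := by
  let g : N →+ threeC0 := AddMonoidHom.mk' (fun x => ⟨fun k => f k x.1, h x.1 x.2⟩) (by
    intro a b
    apply Subtype.ext
    funext k
    exact map_add (f k) a.1 b.1)
  obtain ⟨K, hK⟩ := ext_div three_dv N.subtype g (by
    intro a ha
    have h0 : a = 0 := Subtype.ext ha
    rw [h0, map_zero])
  refine ⟨fun k => ((Pi.evalAddMonoidHom (fun _ : ℕ => T) k).comp threeC0.subtype).comp K, ?_, ?_⟩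
  · intro k x hx
    have h1 := hK ⟨x, hx⟩
    exact congrFun (congrArg Subtype.val h1) k
  · intro x
    exact (K x).2

variable {G : Type} [AddCommGroup G] [TopologicalSpace G] [IsTopologicalAddGroup G]

theorem three (n : ℕ) (hn : 1 ≤ n) (hc : Cn G n) (p : (G →+ T) → ℝ) (hp : PN p) (hs : SeqC p)
    (hann : ∀ N : AddSubgroup G, (N : Set G) ∈ 𝓝 (0 : G) → (∀ x : G, n • x ∈ N) → AnnC p N)
    {U : Set G} (hU : U ∈ 𝓝 (0 : G)) : PolC p U := by
  classical
  intro ε hε
  have hn0 : (0 : ℝ) < n := by exact_mod_cast hn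
  obtain ⟨V, hV, hVs⟩ := pol_small hU (ε := 1 / (2 * n)) (by positivity)
  let N : AddSubgroup G := AddSubgroup.closure (V ∪ Set.range fun x : G => n • x)
  have hN : (N : Set G) ∈ 𝓝 (0 : G) :=
    mem_of_superset hV fun x hx => AddSubgroup.subset_closure (Or.inl hx)
  have hnN : ∀ x : G, n • x ∈ N := fun x => AddSubgroup.subset_closure (Or.inr ⟨x, rfl⟩)
  obtain ⟨F0, hF0⟩ := hann N hN hnN (ε / 2) (by positivity)
  obtain ⟨d, hd⟩ := Set.Countable.exists_eq_range hc (Set.range_nonempty _)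
  by_contra hcon
  have hex : ∀ k : ℕ, ∃ f : G →+ T, Pol U f ∧
      (∀ x ∈ F0 ∪ (Finset.range (k + 1)).image d, ‖f x‖ ≤ 1 / ((k : ℝ) + 1)) ∧ ε < p f := by
    intro k
    by_contra h1
    apply hcon
    refine ⟨F0 ∪ (Finset.range (k + 1)).image d, 1 / ((k : ℝ) + 1), by positivity, ?_⟩
    intro f hf hfx
    by_contra h2
    exact h1 ⟨f, hf, hfx, not_le.mp h2⟩
  choose f hfU hfx hfp using hex
  have hone : Tendsto (fun k : ℕ => 1 / ((k : ℝ) + 1)) atTop (𝓝 0) :=
    tendsto_one_div_add_atTop_nhds_zero_nat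
  have hF : ∀ x ∈ F0, Tendsto (fun k => f k x) atTop (𝓝 0) := fun x hx =>
    squeeze_zero_norm (fun k => hfx k x (Finset.mem_union_left _ hx)) hone
  have hnx : ∀ x : G, Tendsto (fun k => f k (n • x)) atTop (𝓝 0) := by
    intro x
    have hx : n • x ∈ Set.range d := hd ▸ ⟨x, rfl⟩
    obtain ⟨j, hj⟩ := hx
    refine squeeze_zero_norm' ?_ hone
    filter_upwards [eventually_ge_atTop j] with k hk
    refine hfx k _ (Finset.mem_union_right _ (Finset.mem_image.mpr ⟨j, ?_, hj⟩))
    exact Finset.mem_range.mpr (by omega)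
  have hNt : ∀ x ∈ N, Tendsto (fun k => f k x) atTop (𝓝 0) := by
    intro x hx
    induction hx using AddSubgroup.closure_induction with
    | mem x hx =>
      rcases hx with hx | ⟨y, rfl⟩
      · refine squeeze_zero_norm (fun k => ?_) (tendsto_zero_iff_norm_tendsto_zero.mp (hnx x))
        have h1 := hVs (f k) (hfU k) x hx
        have h2 : (n : ℝ) * ‖f k x‖ ≤ 1 / 2 := by
          calc (n : ℝ) * ‖f k x‖ ≤ n * (1 / (2 * n)) := by gcongr
            _ = 1 / 2 := by field_simp
        rw [map_nsmul, T_mul n _ h2]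
        have h3 : (1 : ℝ) ≤ n := by exact_mod_cast hn
        nlinarith [norm_nonneg (f k x)]
      · exact hnx y
    | zero => simp
    | add x y _ _ hx hy =>
      have h := hx.add hy
      rw [add_zero] at h
      simpa only [map_add] using h
    | neg x _ hx =>
      have h := hx.neg
      rw [neg_zero] at h
      simpa only [map_neg] using h
  obtain ⟨ψ, hψN, hψ0⟩ := three_split N f hNt
  have hUN : U ∩ (N : Set G) ∈ 𝓝 (0 : G) := inter_mem hU hN
  have hψP : ∀ k, Pol (U ∩ (N : Set G)) (ψ k) := fun k x hx => by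
    rw [hψN k x hx.2]
    exact hfU k x hx.1
  have hψc : ∀ k, Continuous (ψ k) := fun k => pol_cont hUN (hψP k)
  have hpψ := hs ψ hψc (null_of_pt hUN ψ hψP hψ0)
  have hηN : ∀ k, ∀ x ∈ N, (f k - ψ k) x = 0 := fun k x hx => by
    rw [AddMonoidHom.sub_apply, hψN k x hx, sub_self]
  have hη0 : ∀ᶠ k in atTop, ∀ x ∈ F0, (f k - ψ k) x = 0 := by
    rw [Filter.eventually_all_finset]
    intro x hx
    have h1 := (hF x hx).sub (hψ0 x)
    rw [sub_zero] at h1
    have h2 := (tendsto_zero_iff_norm_tendsto_zero.mp h1).eventually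
      (ge_mem_nhds (show (0 : ℝ) < 1 / (2 * n) by positivity))
    filter_upwards [h2] with k hk
    refine T_tors n hn _ ?_ ?_
    · rw [← map_nsmul]
      exact hηN k _ (hnN x)
    · calc (n : ℝ) * ‖(f k - ψ k) x‖ ≤ n * (1 / (2 * n)) := by
            rw [AddMonoidHom.sub_apply]; gcongr
        _ = 1 / 2 := by field_simp
  have h3 := hpψ.eventually (ge_mem_nhds (show (0 : ℝ) < ε / 2 by positivity))
  obtain ⟨k, hk1, hk2⟩ := (hη0.and h3).exists
  have h4 := hF0 (f k - ψ k) (hηN k) hk1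
  have hfc : Continuous (f k) := pol_cont hU (hfU k)
  have h5 := hp.add (f k - ψ k) (ψ k) (hfc.sub (hψc k)) (hψc k)
  rw [sub_add_cancel] at h5
  have h6 := hfp k
  linarith

end Pool.Agent.Lib.MP_c8715f_al.CL
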