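import Pool.Agent.Lib.MP_c8715f_al.CL.Circ

/-! The topology given by two families of characters. -/

set_option autoImplicit false

open Filter Topology Set

namespace Pool.Agent.Lib.MP_c8715f_al.CL

theorem exists_top {G Ω : Type} [AddCommGroup G] (A : Ω → G →+ T) (B : ℕ → G →+ T)
    (hsep : ∀ g, (∀ ω, A ω g = 0) → (∀ n, B n g = 0) → g = 0) :
    ∃ τ : TopologicalSpace G, @IsTopologicalAddGroup G τ _ ∧
      @TopologicalSpace.MetrizableSpace G τ ∧ @Gen G _ τ Ω A B := by
  have hm : ∀ g : G, Memℓp (fun ω : Ω => A ω g) ⊤ := fun g =>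
    memℓp_infty ⟨|(1 : ℝ)| / 2, by
      rintro _ ⟨ω, rfl⟩
      exact AddCircle.norm_le_half_period 1 one_ne_zero⟩
  let a : G →+ lp (fun _ : Ω => T) ⊤ :=
    { toFun := fun g => ⟨fun ω => A ω g, hm g⟩
      map_zero' := Subtype.ext (funext fun ω => map_zero (A ω))
      map_add' := fun x y => Subtype.ext (funext fun ω => map_add (A ω) x y) }
  let b : G →+ (ℕ → T) := AddMonoidHom.pi B
  let Φ : G →+ lp (fun _ : Ω => T) ⊤ × (ℕ → T) := a.prod b
  have hinj : Function.Injective Φ := by
    rw [injective_iff_map_eq_zero]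
    intro g hg
    have h1 : a g = 0 := congrArg Prod.fst hg
    have h2 : b g = 0 := congrArg Prod.snd hg
    exact hsep g (fun ω => congrFun (congrArg Subtype.val h1) ω) fun n => congrFun h2 n
  let τ : TopologicalSpace G := TopologicalSpace.induced Φ inferInstance
  have he : IsEmbedding Φ := ⟨⟨rfl⟩, hinj⟩
  refine ⟨τ, topologicalAddGroup_induced Φ, he.metrizableSpace, fun ι l g => ?_⟩
  rw [he.tendsto_nhds_iff, map_zero, Prod.tendsto_iff, tendsto_pi_nhds]
  refine and_congr ?_ Iff.rfl
  rw [Prod.fst_zero, NormedAddGroup.tendsto_nhds_zero]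
  constructor
  · intro h ε hε
    filter_upwards [h ε hε] with i hi ω
    exact (lp.norm_apply_le_norm ENNReal.top_ne_zero (a (g i)) ω).trans hi.le
  · intro h ε hε
    filter_upwards [h (ε / 2) (half_pos hε)] with i hi
    exact (lp.norm_le_of_forall_le (f := a (g i)) (half_pos hε).le hi).trans_lt (half_lt_self hε)

end Pool.Agent.Lib.MP_c8715f_al.CL
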