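import Pool.Agent.Lib.MP_c8715f_al.CL.Bridge
import Pool.Agent.Lib.MP_c8715f_al.CL.Comp
import Pool.Agent.Lib.MP_c8715f_al.CL.Three
import Pool.Agent.Lib.MP_c8715f_al.CL.BD
import Pool.Agent.Lib.MP_c8715f_al.CL.NegA
import Pool.Agent.Lib.MP_c8715f_al.CL.Top
import Pool.Agent.Lib.MP_c8715f_al.CL.Data
import Pool.Agent.Lib.MP_c8715f_al.CL.NegB

/-! The classification. -/

set_option autoImplicit false

open Filter Topology Set

namespace Pool.Agent.Lib.MP_c8715f_al.CL

theorem pos {G : Type} [AddCommGroup G] [TopologicalSpace G] [IsTopologicalAddGroup G]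
    [FirstCountableTopology G] [Infinite G] (n : ℕ) (hn : 1 ≤ n) (hc : Cn G n)
    (hG : ¬ CarriesSubmeasure G) : IsSGroup (PontryaginDual (Multiplicative G)) :=
  sgroup_of fun p hp hs => bd p hp fun _ hU =>
    three n hn hc p hp hs (fun N hN hnN => compact_case hG n hn N hN hnN p hp hs) hU

theorem main (G : Type) [AddCommGroup G] :
    (∀ [TopologicalSpace G] [IsTopologicalAddGroup G] [TopologicalSpace.MetrizableSpace G],
      ¬ TopologicalSpace.SeparableSpace G → IsSGroup (PontryaginDual (Multiplicative G))) ↔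
    ((∃ n : ℕ, 1 ≤ n ∧ (Set.range fun x : G => n • x).Countable) ∧ ¬ CarriesSubmeasure G) := by
  constructor
  · intro H
    have h1 : ∃ n : ℕ, 1 ≤ n ∧ Cn G n := by
      by_contra hc
      have h : ∀ n, 1 ≤ n → ¬ Cn G n := fun n hn hcn => hc ⟨n, hn, hcn⟩
      obtain ⟨W, _, _, _, _, hW, hb, r, hr⟩ := exists_W
      obtain ⟨m, x, hm, hx⟩ := indep h W hW
      obtain ⟨Ω, A, B, ρ, ι, s, hsep, hs, hA, hρ, hι⟩ := data W r hr m x hm hx
      obtain ⟨τ, h1, h2, hg⟩ := exists_top A B hsep
      obtain ⟨hns, p, hp, hsq, hnc⟩ := negB hb hg ρ ι s x hs hA hρ hι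
      exact hnc (cont_of_sgroup (H hns) p hp hsq)
    obtain ⟨n, hn, hc⟩ := h1
    refine ⟨⟨n, hn, hc⟩, fun hcar => ?_⟩
    letI : TopologicalSpace G := ⊥
    haveI : DiscreteTopology G := ⟨rfl⟩
    haveI := uncountable_of_carries hcar
    obtain ⟨p, hp, hsq, hnc⟩ := negA G n hn hc hcar
    have hns : ¬ TopologicalSpace.SeparableSpace G := by
      intro hsep
      have : Countable G := TopologicalSpace.separableSpace_iff_countable.mp hsep
      exact not_countable this
    exact hnc (cont_of_sgroup (H hns) p hp hsq)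
  · rintro ⟨⟨n, hn, hc⟩, hG⟩ _ _ _ hns
    haveI : Infinite G := by
      by_contra hf
      haveI : Finite G := not_infinite_iff_finite.mp hf
      exact hns inferInstance
    exact pos n hn hc hG

end Pool.Agent.Lib.MP_c8715f_al.CL
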