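import Pool.Agent.Lib.MP_c8715f_al.CL.Subm

/-! Ulam matrices: no diffuse continuous submeasure below the first weakly inaccessible cardinal. -/

set_option autoImplicit false

open Filter Topology Set Cardinal

namespace Pool.Agent.Lib.MP_c8715f_al.CL

lemma ulam_union {X I : Type} {ν : Set X → ℝ} (h : SubM ν) (hI : ¬ CarriesSubmeasure I)
    (N : I → Set X) (hN : ∀ i, ν (N i) = 0) : ν (⋃ i, N i) = 0 := by
  classical
  by_contra hne
  apply hI
  have hex : ∀ y : (⋃ i, N i : Set X), ∃ i, y.1 ∈ N i := fun y => mem_iUnion.mp y.2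
  choose r hr using hex
  let P : Set I → Set X := fun S => {x | ∃ hx : x ∈ ⋃ i, N i, r ⟨x, hx⟩ ∈ S}
  have hPm : ∀ A B, A ⊆ B → P A ⊆ P B := fun A B hAB x ⟨hx, h1⟩ => ⟨hx, hAB h1⟩
  refine carries_iff.mpr ⟨fun S => ν (P S), ⟨fun A B hAB => h.mono _ _ (hPm A B hAB), ?_, ?_⟩,
    ?_, ?_⟩
  · intro A B
    refine le_trans (h.mono _ _ ?_) (h.add (P A) (P B))
    rintro x ⟨hx, h1 | h1⟩
    · exact Or.inl ⟨hx, h1⟩
    · exact Or.inr ⟨hx, h1⟩
  · intro A hA h0
    refine h.cont (fun n => P (A n)) (fun a b hab => hPm _ _ (hA hab)) ?_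
    rw [eq_empty_iff_forall_notMem]
    intro x hx
    obtain ⟨hx0, _⟩ := mem_iInter.mp hx 0
    have h1 : r ⟨x, hx0⟩ ∈ ⋂ n, A n := mem_iInter.mpr fun n => (mem_iInter.mp hx n).2
    rw [h0] at h1
    exact h1
  · intro i
    refine le_antisymm ?_ (h.nonneg _)
    rw [← hN i]
    refine h.mono _ _ ?_
    rintro x ⟨hx, h1⟩
    have h2 := hr ⟨x, hx⟩
    rwa [mem_singleton_iff.mp h1] at h2
  · refine lt_of_lt_of_le (lt_of_le_of_ne (h.nonneg _) (Ne.symm hne)) (h.mono _ _ ?_)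
    exact fun x hx => ⟨hx, mem_univ _⟩

/-- a family of pairwise disjoint sets of positive submeasure is countable -/
lemma ulam_ccc {X I : Type} {ν : Set X → ℝ} (h : SubM ν) [Uncountable I] (A : I → Set X)
    (hA : ∀ i j x, x ∈ A i → x ∈ A j → i = j) : ∃ i, ν (A i) = 0 := by
  by_contra hc
  have hex : ∀ i, ∃ j : ℕ, 1 / ((j : ℝ) + 1) < ν (A i) := fun i =>
    exists_nat_one_div_lt (lt_of_le_of_ne (h.nonneg _) fun h0 => hc ⟨i, h0.symm⟩)
  choose g hg using hex
  obtain ⟨j, hj⟩ := exists_infinite_fiber g (by simp)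
  let u := Infinite.natEmbedding (g ⁻¹' {j})
  have ht := h.cont (fun n => ⋃ k ≥ n, A (u k).1)
    (fun a b hab => biUnion_subset_biUnion_left fun k (hk : b ≤ k) => le_trans hab hk) (by
      rw [eq_empty_iff_forall_notMem]
      intro x hx
      obtain ⟨k, _, hk⟩ := mem_iUnion₂.mp (mem_iInter.mp hx 0)
      obtain ⟨l, hl, hl'⟩ := mem_iUnion₂.mp (mem_iInter.mp hx (k + 1))
      have h1 : k = l := u.injective (Subtype.ext (hA _ _ x hk hl'))
      omega)
  obtain ⟨n, hn⟩ := (ht.eventually (gt_mem_nhds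
    (show (0 : ℝ) < 1 / ((j : ℝ) + 1) by positivity))).exists
  have h1 : ν (A (u n).1) ≤ ν (⋃ k ≥ n, A (u k).1) :=
    h.mono _ _ fun x hx => mem_iUnion₂.mpr ⟨n, le_rfl, hx⟩
  have h2 := hg (u n).1
  rw [show g (u n).1 = j from (u n).2] at h2
  linarith

theorem ulam {X : Type} (hX : CarriesSubmeasure X) :
    ∃ κ : Cardinal, κ ≤ #X ∧ ℵ₀ < κ ∧ κ.IsRegular ∧ Order.IsSuccLimit κ := by
  classical
  have htr : ∀ Y : Type, CarriesSubmeasure Y → CarriesSubmeasure (#Y).ord.ToType := by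
    intro Y hY
    obtain ⟨e⟩ := Cardinal.eq.mp (mk_ord_toType #Y).symm
    exact carries_of_inj e e.injective hY
  obtain ⟨κ, hκ, hmin⟩ := WellFounded.has_min wellFounded_lt
    {c : Cardinal.{0} | CarriesSubmeasure c.ord.ToType} ⟨_, htr X hX⟩
  have hsm : ∀ Y : Type, #Y < κ → ¬ CarriesSubmeasure Y := fun Y hY hc => hmin _ (htr Y hc) hY
  have hunc : Uncountable κ.ord.ToType := uncountable_of_carries hκ
  have h0 : ℵ₀ < κ := by simpa using Cardinal.aleph0_lt_mk (α := κ.ord.ToType)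
  obtain ⟨ν, hν, hpt, hpos⟩ := carries_iff.mp hκ
  have hio : ∀ a : κ.ord.ToType, #(Iio a) < κ := fun a => by simpa using mk_Iio_lt a
  have hic : ∀ a : κ.ord.ToType, ν (Iic a) = 0 := by
    intro a
    have h1 := ulam_union hν (hsm _ (hio a)) (fun b : Iio a => {b.1}) fun b => hpt _
    have h2 : Iic a ⊆ (⋃ b : Iio a, {b.1}) ∪ {a} := by
      intro x hx
      rcases lt_or_eq_of_le (mem_Iic.mp hx) with h3 | h3
      · exact Or.inl (mem_iUnion.mpr ⟨⟨x, h3⟩, rfl⟩)
      · exact Or.inr h3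
    have h3 := (hν.mono _ _ h2).trans (hν.add _ _)
    rw [h1, hpt] at h3
    exact le_antisymm (by linarith) (hν.nonneg _)
  refine ⟨κ, not_lt.mp (hmin _ (htr X hX)), h0, ⟨h0.le, ?_⟩, ?_⟩
  · by_contra hlt
    obtain ⟨C, hC, hC'⟩ := Order.exists_cof_eq κ.ord.ToType
    rw [Ordinal.cof_toType] at hC'
    have h1 := ulam_union hν (hsm C (hC' ▸ not_le.mp hlt)) (fun c : C => Iic c.1) fun c => hic _
    have h2 : (univ : Set κ.ord.ToType) ⊆ ⋃ c : C, Iic c.1 := by
      intro x _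
      obtain ⟨c, hc, hxc⟩ := hC x
      exact mem_iUnion.mpr ⟨⟨c, hc⟩, hxc⟩
    have h3 := hν.mono _ _ h2
    linarith
  · rcases Order.isMin_or_mem_range_succ_or_isSuccLimit κ with hm | ⟨l, hl⟩ | hlim
    · exact absurd (hm h0.le) (not_le.mpr h0)
    · exfalso
      have hl' : #l.out < κ := by rw [mk_out, ← hl]; exact Order.lt_succ l
      have hf : ∀ b : κ.ord.ToType, Nonempty (Iio b ↪ l.out) := by
        intro b
        rw [← Cardinal.le_def, mk_out, ← Order.lt_succ_iff, hl]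
        exact hio b
      let f : ∀ b : κ.ord.ToType, Iio b ↪ l.out := fun b => (hf b).some
      let A : κ.ord.ToType → l.out → Set κ.ord.ToType :=
        fun a ξ => {b | ∃ hab : a < b, f b ⟨a, hab⟩ = ξ}
      have hex : ∀ a, ∃ ξ, ν (A a ξ) ≠ 0 := by
        intro a
        by_contra hc
        have h1 := ulam_union hν (hsm _ hl') (A a) fun ξ => by
          by_contra h2
          exact hc ⟨ξ, h2⟩
        have h2 : (univ : Set κ.ord.ToType) ⊆ Iic a ∪ ⋃ ξ, A a ξ := by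
          intro b _
          rcases le_or_gt b a with h3 | h3
          · exact Or.inl h3
          · exact Or.inr (mem_iUnion.mpr ⟨_, h3, rfl⟩)
        have h3 := (hν.mono _ _ h2).trans (hν.add _ _)
        rw [h1, hic] at h3
        linarith
      choose g hg using hex
      obtain ⟨ξ, hξ⟩ := exists_uncountable_fiber g (by simpa using hl')
      obtain ⟨a, ha⟩ := ulam_ccc hν (fun a : g ⁻¹' {ξ} => A a.1 ξ) (by
        rintro a a' b ⟨h1, h2⟩ ⟨h3, h4⟩
        have h5 := congrArg Subtype.val ((f b).injective (h2.trans h4.symm))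
        exact Subtype.ext h5)
      apply hg a.1
      rw [show g a.1 = ξ from a.2]
      exact ha
    · exact hlim

end Pool.Agent.Lib.MP_c8715f_al.CL
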