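import Pool.Agent.Lib.MP_c8715f_al.CL.Equi

/-! Null sequences of characters forget the precompact part. -/

set_option autoImplicit false

open Filter Topology Set

namespace Pool.Agent.Lib.MP_c8715f_al.CL

variable {G : Type} [AddCommGroup G] [TopologicalSpace G] [IsTopologicalAddGroup G]

theorem unif [FirstCountableTopology G] {Ω : Type} {A : Ω → G →+ T} {B : ℕ → G →+ T}
    (hg : Gen A B) (f : ℕ → G →+ T) (hf : ∀ i, Continuous (f i)) (h : Null f) :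
    ∃ δ : ℝ, 0 < δ ∧ ∀ᶠ i in atTop, ∀ g, (∀ ω, ‖A ω g‖ ≤ δ) → ‖f i g‖ ≤ 1 / 4 := by
  by_contra hcon
  have h1 : ∀ k : ℕ, ∃ n, k ≤ n ∧ ∃ g, (∀ ω, ‖A ω g‖ ≤ 1 / ((k : ℝ) + 1)) ∧ 1 / 4 < ‖f n g‖ := by
    intro k
    by_contra hk
    refine hcon ⟨1 / ((k : ℝ) + 1), Nat.one_div_pos_of_nat, eventually_atTop.2 ⟨k, ?_⟩⟩
    intro n hn g hA
    by_contra hlt
    exact hk ⟨n, hn, g, hA, not_le.1 hlt⟩
  choose n hn g hA hbig using h1
  obtain ⟨b, φ, hφ, hb⟩ := CompactSpace.tendsto_subseq (fun k => fun m => B m (g k))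
  have hd : Tendsto (fun q : ℕ × ℕ => g (φ q.1) - g (φ q.2)) (atTop ×ˢ atTop) (𝓝 0) := by
    refine (hg _ _ _).2 ⟨fun ε hε => ?_, fun m => ?_⟩
    · have h2 : ∀ᶠ k : ℕ in atTop, 1 / ((φ k : ℝ) + 1) ≤ ε / 2 :=
        ((tendsto_one_div_add_atTop_nhds_zero_nat.comp hφ.tendsto_atTop).eventually_le_const
          (half_pos hε))
      filter_upwards [h2.prod_mk h2] with q hq ω
      rw [map_sub]
      refine (norm_sub_le _ _).trans ?_
      linarith [hA (φ q.1) ω, hA (φ q.2) ω, hq.1, hq.2]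
    · have h3 : Tendsto (fun k => B m (g (φ k))) atTop (𝓝 (b m)) := tendsto_pi_nhds.1 hb m
      have h4 := (h3.comp (tendsto_fst (g := atTop (α := ℕ)))).sub
        (h3.comp (tendsto_snd (f := atTop (α := ℕ))))
      rw [sub_self] at h4
      simp only [map_sub]
      exact h4
  obtain ⟨U, hU, hpol⟩ := equi f hf h
  obtain ⟨V, hV, hsm⟩ := pol_small hU (show (0 : ℝ) < 1 / 16 by norm_num)
  obtain ⟨pa, hpa, pb, hpb, hab⟩ := eventually_prod_iff.1 (hd.eventually hV)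
  obtain ⟨j, hj⟩ := hpb.exists
  have h5 : ∀ᶠ i in atTop, ‖f i (g (φ j))‖ ≤ 1 / 16 := by
    have h6 := (h.pt (g (φ j))).norm
    rw [norm_zero] at h6
    exact h6.eventually_le_const (by norm_num)
  have h7 : Tendsto (fun i => n (φ i)) atTop atTop :=
    tendsto_atTop_mono (fun i => hn (φ i)) hφ.tendsto_atTop
  obtain ⟨i, hi1, hi2, hi3⟩ := (hpa.and ((h7.eventually hpol).and (h7.eventually h5))).exists
  have h8 := hsm _ hi2 _ (hab hi1 hj)
  rw [map_sub] at h8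
  have h9 := norm_sub_norm_le (f (n (φ i)) (g (φ i))) (f (n (φ i)) (g (φ j)))
  linarith [hbig (φ i)]

theorem gen_cont {Ω : Type} {A : Ω → G →+ T} {B : ℕ → G →+ T} (hg : Gen A B) (ω : Ω) :
    Continuous (A ω) := by
  refine continuous_of_continuousAt_zero (A ω) ?_
  have h1 := ((hg G (𝓝 0) id).1 tendsto_id).1
  rw [ContinuousAt, map_zero, NormedAddGroup.tendsto_nhds_zero]
  intro ε hε
  filter_upwards [h1 (ε / 2) (half_pos hε)] with g hg'
  exact (hg' ω).trans_lt (half_lt_self hε)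

theorem vanish {Ω W : Type} [LinearOrder W] [Nonempty W] (hW : ∀ u : ℕ → W, ∃ w, ∀ i, u i ≤ w)
    {A : Ω → G →+ T} {B : ℕ → G →+ T} (hg : Gen A B) (ι : W → Ω)
    (hι : ∀ g, ∃ β, ∀ γ, β ≤ γ → A (ι γ) g = 0) {K : Set G}
    (hK : TopologicalSpace.IsSeparable K) : ∃ γ, ∀ g ∈ K, A (ι γ) g = 0 := by
  obtain ⟨c, hc, hKc⟩ := hK
  obtain ⟨u, hu⟩ := (hc.insert 0).exists_eq_range (Set.insert_nonempty _ _)
  choose β hβ using hι
  obtain ⟨w, hw⟩ := hW fun i => β (u i)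
  refine ⟨w, fun g hgK => ?_⟩
  have hcl : IsClosed {g | A (ι w) g = 0} := isClosed_eq (gen_cont hg _) continuous_const
  refine closure_minimal (fun x hx => ?_) hcl (hKc hgK)
  have hx' : x ∈ Set.range u := hu ▸ Set.mem_insert_of_mem _ hx
  obtain ⟨i, rfl⟩ := hx'
  exact hβ (u i) w (hw i)

end Pool.Agent.Lib.MP_c8715f_al.CL
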